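import Pool.Agent.Lib.helper79.Brouwer

/-!
General tools: a fixed point theorem, integer points of a rational cone, permutation models.
-/

namespace Pool.Agent.MP_3bdc7b_an

open Metric

lemma brouwer_fintype {κ : Type*} [Fintype κ] (f : (κ → ℝ) → (κ → ℝ)) (hf : Continuous f)
    (hb : ∀ x i, |f x i| ≤ 1) : ∃ x, f x = x := by
  let e := Fintype.equivFin κ
  let g : (Fin (Fintype.card κ) → ℝ) → (Fin (Fintype.card κ) → ℝ) :=
    fun y j => f (fun i => y (e i)) (e.symm j)
  have hg : Continuous g := by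
    refine continuous_pi fun j => ?_
    exact (continuous_apply (e.symm j)).comp (hf.comp (continuous_pi fun i => continuous_apply _))
  obtain ⟨y, -, hy⟩ := Pool.Agent.Lib.helper79.brouwer_cube (f := g) hg.continuousOn
    (fun y _ => by
      rw [mem_closedBall_zero_iff, pi_norm_le_iff_of_nonneg zero_le_one]
      exact fun j => hb _ _)
  refine ⟨fun i => y (e i), funext fun i => ?_⟩
  have := congrFun hy (e i)
  simpa [g] using this

lemma exists_rat_functional {T : Type*} [Finite T] (v : T → ℝ) :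
    ∃ f : ℝ →ₗ[ℚ] ℚ, ∀ t, 0 < v t → 0 < f (v t) := by
  classical
  let b := Module.Basis.ofVectorSpace ℚ ℝ
  let O : Set (Module.Basis.ofVectorSpaceIndex ℚ ℝ → ℝ) :=
    ⋂ t, {r | 0 < v t → 0 < ∑ i ∈ (b.repr (v t)).support, (b.repr (v t) i : ℝ) * r i}
  have hO : IsOpen O := by
    refine isOpen_iInter_of_finite fun t => ?_
    by_cases h : 0 < v t
    · simp only [h, forall_true_left]
      exact isOpen_lt continuous_const (by fun_prop)
    · simp [h]
  have hne : O.Nonempty := by
    refine ⟨fun i => b i, Set.mem_iInter.2 fun t h => ?_⟩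
    have := b.linearCombination_repr (v t)
    rw [Finsupp.linearCombination_apply, Finsupp.sum] at this
    simp only [Rat.smul_def] at this
    rw [this]; exact h
  have hd : DenseRange (Pi.map fun (_ : Module.Basis.ofVectorSpaceIndex ℚ ℝ) =>
      ((↑) : ℚ → ℝ)) := DenseRange.piMap fun _ => Rat.denseRange_cast
  obtain ⟨r, hr⟩ := hd.exists_mem_open hO hne
  refine ⟨b.constr ℚ r, fun t h => ?_⟩
  have h1 := Set.mem_iInter.1 hr t h
  rw [Module.Basis.constr_apply, Finsupp.sum]
  simp only [Pi.map_apply] at h1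
  simp only [smul_eq_mul]
  exact_mod_cast h1

lemma exists_nat_solution {T K J : Type*} [Fintype T] [DecidableEq K] (p : T → ℝ)
    (hp : ∀ t, 0 ≤ p t) (f g : J → T → K)
    (h : ∀ j k, ∑ t, (if f j t = k then p t else 0) = ∑ t, (if g j t = k then p t else 0)) :
    ∃ q : T → ℕ, (∀ t, q t ≠ 0 ↔ p t ≠ 0) ∧
      ∀ j k, ∑ t, (if f j t = k then q t else 0) = ∑ t, (if g j t = k then q t else 0) := by
  classical
  obtain ⟨F, hF⟩ := exists_rat_functional p
  have h0 : ∀ t, 0 ≤ F (p t) := fun t => by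
    rcases (hp t).eq_or_lt with h | h
    · rw [← h, map_zero]
    · exact (hF t h).le
  let N : ℕ := ∏ t, (F (p t)).den
  have hN : 0 < N := Finset.prod_pos fun t _ => (F (p t)).den_pos
  have hq : ∀ t, ∃ n : ℕ, (n : ℚ) = N * F (p t) := fun t => by
    obtain ⟨c, hc⟩ : (F (p t)).den ∣ N := Finset.dvd_prod_of_mem _ (Finset.mem_univ t)
    refine ⟨c * (F (p t)).num.toNat, ?_⟩
    have h1 : (((F (p t)).num.toNat : ℕ) : ℚ) = (F (p t)).num := by
      have := Int.toNat_of_nonneg (Rat.num_nonneg.2 (h0 t))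
      exact_mod_cast this
    have h2 := Rat.den_mul_eq_num (F (p t))
    rw [hc]; push_cast; rw [h1, ← h2]; ring
  choose q hq using hq
  refine ⟨q, fun t => ⟨fun h1 h2 => h1 ?_, fun h1 h2 => ?_⟩, fun j k => ?_⟩
  · have := hq t
    rw [h2, map_zero, mul_zero] at this
    exact_mod_cast this
  · have h3 := hF t ((hp t).lt_of_ne' h1)
    have := hq t
    rw [h2] at this
    have h4 : (0 : ℚ) < N * F (p t) := mul_pos (by exact_mod_cast hN) h3
    simp [← this] at h4
  · have e : ∀ u : T → K, ((∑ t, (if u t = k then q t else 0) : ℕ) : ℚ) =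
        N * F (∑ t, (if u t = k then p t else 0)) := fun u => by
      rw [map_sum, Finset.mul_sum]; push_cast
      refine Finset.sum_congr rfl fun t _ => ?_
      split_ifs
      · exact hq t
      · simp
    have : ((∑ t, (if f j t = k then q t else 0) : ℕ) : ℚ) =
        ((∑ t, (if g j t = k then q t else 0) : ℕ) : ℚ) := by rw [e, e, h]
    exact_mod_cast this

lemma exists_perm_model {T K J : Type*} [Fintype T] [DecidableEq K] (q : T → ℕ)
    (f g : J → T → K)
    (h : ∀ j k, ∑ t, (if f j t = k then q t else 0) = ∑ t, (if g j t = k then q t else 0)) :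
    ∃ ρ : J → Equiv.Perm (Σ t, Fin (q t)), ∀ j v, g j (ρ j v).1 = f j v.1 := by
  classical
  have hc : ∀ (u : T → K) (k : K), Fintype.card {v : Σ t, Fin (q t) // u v.1 = k} =
      ∑ t, (if u t = k then q t else 0) := fun u k => by
    rw [Fintype.card_subtype, Finset.card_filter, Fintype.sum_sigma]
    refine Finset.sum_congr rfl fun t _ => ?_
    by_cases hk : u t = k <;> simp [hk]
  refine ⟨fun j => Equiv.ofFiberEquiv (f := fun v : Σ t, Fin (q t) => f j v.1)
    (g := fun v : Σ t, Fin (q t) => g j v.1)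
    fun k => Fintype.equivOfCardEq (by rw [hc, hc, h]), fun j v => ?_⟩
  exact Equiv.ofFiberEquiv_map (f := fun v : Σ t, Fin (q t) => f j v.1)
    (g := fun v : Σ t, Fin (q t) => g j v.1) _ v

lemma sum_fix {L β : Type*} [Fintype L] [Fintype β] [DecidableEq L] [DecidableEq β]
    (μ : L → β → ℝ) (l : L) (h1 : ∑ b, μ l b = 1) (f : (L → β) → ℝ)
    (hf : ∀ I b, f (Function.update I l b) = f I) (b0 : β) :
    ∑ I : L → β, (if I l = b0 then f I * ∏ m, μ m (I m) else 0) =
      μ l b0 * ∑ I : L → β, f I * ∏ m, μ m (I m) := by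
  let e := Equiv.funSplitAt l β
  have el : ∀ b r, e.symm (b, r) l = b := fun b r => by simp [e]
  have em : ∀ b r m (h : m ≠ l), e.symm (b, r) m = r ⟨m, h⟩ := fun b r m h => by simp [e, h]
  have hp : ∀ b r, ∏ m, μ m (e.symm (b, r) m) = μ l b * ∏ m : {m // m ≠ l}, μ m (r m) := by
    intro b r
    rw [Fintype.prod_eq_mul_prod_subtype_ne _ l, el]
    congr 1
    exact Finset.prod_congr rfl fun m _ => by rw [em b r m m.2]
  have hf' : ∀ b r, f (e.symm (b, r)) = f (e.symm (b0, r)) := by
    intro b r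
    rw [← hf (e.symm (b0, r)) b]
    congr 1
    funext m
    by_cases h : m = l
    · subst h; simp [el]
    · rw [Function.update_of_ne h, em _ _ _ h, em _ _ _ h]
  rw [← e.symm.sum_comp, ← e.symm.sum_comp (g := fun I => f I * ∏ m, μ m (I m)),
    Fintype.sum_prod_type, Fintype.sum_prod_type]
  simp only [el, hp, hf']
  have e1 : ∑ b, ∑ r : {m // m ≠ l} → β,
      f (e.symm (b0, r)) * (μ l b * ∏ m : {m // m ≠ l}, μ m (r m)) =
      ∑ r : {m // m ≠ l} → β, f (e.symm (b0, r)) * ∏ m : {m // m ≠ l}, μ m (r m) := by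
    rw [Finset.sum_comm]
    refine Finset.sum_congr rfl fun r _ => ?_
    rw [← Finset.mul_sum, ← Finset.sum_mul, h1, one_mul]
  rw [e1, Finset.sum_eq_single b0 (by intro b _ hb; simp [hb]) (by simp), Finset.mul_sum]
  refine Finset.sum_congr rfl fun r _ => ?_
  simp only [if_true]; ring

end Pool.Agent.MP_3bdc7b_an
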