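import Pool.Agent.MP_3bdc7b_an.States
import Pool.Agent.MP_3bdc7b_an.Alg

/-!
A belief propagation fixed point on the states of a strongly irreducible model.
-/

namespace Pool.Agent.MP_3bdc7b_an

open FreeGroup Classical

universe u v w

variable {ι : Type u} {C : Type v} {A : Type w} [DecidableEq ι] [Fintype ι] [Fintype C]
  [Fintype A]

namespace TM

variable (M : TM ι C A)

/-- the unnormalised update of the messages -/
noncomputable def W (μ : ι × Bool → Set C → ℝ) (l : ι × Bool) (J : Set C) : ℝ :=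
  ∑ a : A, ∑ I : ι × Bool → Set C,
    (if M.Psi l a I = J ∧ J ∈ M.Real l then 1 else 0) * ∏ m, μ m (I m)

/-- the normalising constant -/
noncomputable def Z (μ : ι × Bool → Set C → ℝ) (l : ι × Bool) : ℝ := ∑ J, M.W μ l J

/-- the weight of the consistent types with a given visible label -/
noncomputable def Z0 (a : A) (μ : ι × Bool → Set C → ℝ) : ℝ :=
  ∑ I : ι × Bool → Set C, (if M.Val a I then 1 else 0) * ∏ m, μ m (I m)

/-- vectors that are spread over a good set of states -/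
def Piece (n : ℕ) (δ : ℝ) (l : ι × Bool) (ν : Set C → ℝ) : Prop :=
  (∀ J, 0 ≤ ν J) ∧ (ν = 0 ∨ ∃ S, M.Good n l S ∧ (∀ J, J ∉ S → ν J = 0) ∧
    ∀ J ∈ S, δ * ∑ J', ν J' ≤ ν J)

variable {M}

lemma W_nonneg {μ : ι × Bool → Set C → ℝ} (h : ∀ m J, 0 ≤ μ m J) (l : ι × Bool) (J : Set C) :
    0 ≤ M.W μ l J :=
  Finset.sum_nonneg fun _ _ => Finset.sum_nonneg fun _ _ =>
    mul_nonneg (by split_ifs <;> norm_num) (Finset.prod_nonneg fun _ _ => h _ _)

lemma Z_le {μ : ι × Bool → Set C → ℝ} (h : ∀ m J, 0 ≤ μ m J) (l : ι × Bool) :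
    M.Z μ l ≤ Fintype.card A * ∏ m, ∑ J, μ m J := by
  unfold Z W
  rw [Finset.sum_comm, Fintype.prod_sum, ← nsmul_eq_mul, ← Finset.card_univ, ← Finset.sum_const]
  refine Finset.sum_le_sum fun a _ => ?_
  rw [Finset.sum_comm]
  refine Finset.sum_le_sum fun I _ => ?_
  rw [← Finset.sum_mul]
  refine mul_le_of_le_one_left (Finset.prod_nonneg fun _ _ => h _ _) ?_
  rw [Finset.sum_eq_single (M.Psi l a I)]
  · split_ifs <;> norm_num
  · intro J _ hJ
    rw [if_neg fun h => hJ h.1.symm]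
  · simp

lemma piece_W {n : ℕ} {δ : ℝ} (hδ : 0 ≤ δ) {ν : ι × Bool → Set C → ℝ}
    (h : ∀ m, M.Piece n δ m (ν m)) (l : ι × Bool) :
    M.Piece (n + 1) (δ ^ Fintype.card (ι × Bool) / Fintype.card A) l (M.W ν l) := by
  have h0 : ∀ m J, 0 ≤ ν m J := fun m => (h m).1
  refine ⟨W_nonneg h0 l, ?_⟩
  by_cases hz : ∃ m, ν m = 0
  · obtain ⟨m, hm⟩ := hz
    refine Or.inl (funext fun J => ?_)
    refine Finset.sum_eq_zero fun a _ => Finset.sum_eq_zero fun I _ => ?_
    rw [Finset.prod_eq_zero (Finset.mem_univ m) (by rw [hm]; rfl), mul_zero]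
  push Not at hz
  choose S hS h1 h2 using fun m => (h m).2.resolve_left (hz m)
  have hoff : ∀ J, J ∉ {J | ∃ a I, (∀ m, I m ∈ S m) ∧ M.Psi l a I = J ∧ J.Nonempty} →
      M.W ν l J = 0 := by
    intro J hJ
    refine Finset.sum_eq_zero fun a _ => Finset.sum_eq_zero fun I _ => ?_
    split_ifs with hc
    · by_contra hne
      refine hJ ⟨a, I, fun m => ?_, hc.1, hc.2.1⟩
      by_contra hm
      exact hne (by rw [Finset.prod_eq_zero (Finset.mem_univ m) (h1 m _ hm), mul_zero])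
    · rw [zero_mul]
  rcases {J | ∃ a I, (∀ m, I m ∈ S m) ∧ M.Psi l a I = J ∧ J.Nonempty}.eq_empty_or_nonempty
    with he | hne
  · exact Or.inl (funext fun J => hoff J (by rw [he]; simp))
  have hg := good_step l hS hne
  refine Or.inr ⟨_, hg, hoff, fun J hJ => ?_⟩
  have hJr := good_real hg hJ
  obtain ⟨a, I, hI, hp, -⟩ := hJ
  have hA : (0 : ℝ) < Fintype.card A := by
    have : Nonempty A := ⟨a⟩
    exact_mod_cast Fintype.card_pos
  calc δ ^ Fintype.card (ι × Bool) / Fintype.card A * ∑ J', M.W ν l J'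
      ≤ δ ^ Fintype.card (ι × Bool) / Fintype.card A *
        (Fintype.card A * ∏ m, ∑ J, ν m J) :=
        mul_le_mul_of_nonneg_left (Z_le h0 l) (by positivity)
    _ = ∏ m, (δ * ∑ J, ν m J) := by
        rw [Finset.prod_mul_distrib, Finset.prod_const, Finset.card_univ]
        field_simp
    _ ≤ ∏ m, ν m (I m) := Finset.prod_le_prod
        (fun m _ => mul_nonneg hδ (Finset.sum_nonneg fun _ _ => h0 _ _))
        fun m _ => h2 m _ (hI m)
    _ = (if M.Psi l a I = J ∧ J ∈ M.Real l then 1 else 0) * ∏ m, ν m (I m) := by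
        rw [if_pos ⟨hp, hJr⟩, one_mul]
    _ ≤ ∑ I : ι × Bool → Set C,
        (if M.Psi l a I = J ∧ J ∈ M.Real l then 1 else 0) * ∏ m, ν m (I m) :=
        Finset.single_le_sum (f := fun I : ι × Bool → Set C =>
          (if M.Psi l a I = J ∧ J ∈ M.Real l then (1 : ℝ) else 0) * ∏ m, ν m (I m))
          (fun _ _ => mul_nonneg (by split_ifs <;> norm_num)
            (Finset.prod_nonneg fun _ _ => h0 _ _)) (Finset.mem_univ I)
    _ ≤ M.W ν l J :=
        Finset.single_le_sum (f := fun a : A => ∑ I : ι × Bool → Set C,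
          (if M.Psi l a I = J ∧ J ∈ M.Real l then (1 : ℝ) else 0) * ∏ m, ν m (I m))
          (fun _ _ => Finset.sum_nonneg fun _ _ => mul_nonneg (by split_ifs <;> norm_num)
            (Finset.prod_nonneg fun _ _ => h0 _ _)) (Finset.mem_univ a)

omit [Fintype ι] [Fintype A] in
lemma Piece.smul {n : ℕ} {δ : ℝ} {l : ι × Bool} {ν : Set C → ℝ} (h : M.Piece n δ l ν) {t : ℝ}
    (ht : 0 ≤ t) : M.Piece n δ l fun J => t * ν J := by
  refine ⟨fun J => mul_nonneg ht (h.1 J), ?_⟩
  rcases h.2 with h | ⟨S, hS, h1, h2⟩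
  · left; funext J; simp [h]
  · refine Or.inr ⟨S, hS, fun J hJ => by simp only [h1 J hJ, mul_zero], fun J hJ => ?_⟩
    rw [← Finset.mul_sum, mul_left_comm]
    exact mul_le_mul_of_nonneg_left (h2 J hJ) ht

omit [Fintype ι] [Fintype A] in
lemma piece_single {n : ℕ} {δ : ℝ} (hδ : δ ≤ 1) {l : ι × Bool} {J₀ : Set C}
    (h : M.Good n l {J₀}) : M.Piece n δ l fun J => if J = J₀ then 1 else 0 := by
  refine ⟨fun J => by dsimp only; split_ifs <;> norm_num, Or.inr ⟨_, h, fun J hJ => if_neg hJ, ?_⟩⟩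
  rintro J rfl
  simpa using hδ

omit [Fintype C] [Fintype A] in
lemma sum_prod_sum {β κ : Type*} [Fintype β] [Fintype κ] (f : (ι × Bool → β) → ℝ)
    (ν : ι × Bool → κ → β → ℝ) :
    ∑ I : ι × Bool → β, f I * ∏ m, ∑ k, ν m k (I m) =
      ∑ k : ι × Bool → κ, ∑ I : ι × Bool → β, f I * ∏ m, ν m (k m) (I m) := by
  rw [Finset.sum_comm]
  refine Finset.sum_congr rfl fun I _ => ?_
  rw [Fintype.prod_sum, Finset.mul_sum]

/-- the lower bounds for the spread of the pieces -/
noncomputable def dl (a b : ℕ) : ℕ → ℝ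
  | 0 => 1
  | n + 1 => dl a b n ^ a / b

lemma dl_pos {a b : ℕ} (hb : 0 < b) : ∀ n, 0 < dl a b n ∧ dl a b n ≤ 1
  | 0 => ⟨one_pos, le_rfl⟩
  | n + 1 => by
    obtain ⟨h1, h2⟩ := dl_pos (a := a) hb n
    have hb' : (1 : ℝ) ≤ b := by exact_mod_cast hb
    refine ⟨by unfold dl; positivity, ?_⟩
    unfold dl
    rw [div_le_one (by positivity)]
    exact (pow_le_one₀ h1.le h2).trans hb'

lemma exists_dec [Nonempty C] {μ : ι × Bool → Set C → ℝ} (h0 : ∀ m J, 0 ≤ μ m J) {ε : ℝ}
    (hε : 0 < ε)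
    (hfix : ∀ l J, μ l J = (M.W μ l J + ε * if J = Set.univ then 1 else 0) / (M.Z μ l + ε))
    (n : ℕ) : ∃ (κ : Type (max u v)) (_ : Fintype κ) (ν : ι × Bool → κ → Set C → ℝ),
      (∀ l J, μ l J = ∑ k, ν l k J) ∧
      ∀ l k, M.Piece n (dl (Fintype.card (ι × Bool)) (Fintype.card A) n) l (ν l k) := by
  have hA : 0 < Fintype.card A := by
    have : Nonempty A := ⟨M.p (Classical.arbitrary C)⟩
    exact Fintype.card_pos
  have hZ : ∀ l, 0 < M.Z μ l + ε := fun l =>
    add_pos_of_nonneg_of_pos (Finset.sum_nonneg fun _ _ => W_nonneg h0 _ _) hε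
  induction n with
  | zero =>
    refine ⟨ULift.{u} (Set C), inferInstance,
      fun l k J => μ l k.down * if J = k.down then 1 else 0, fun l J => ?_, fun l k => ?_⟩
    · rw [Finset.sum_eq_single ⟨J⟩]
      · simp
      · intro k _ hk
        dsimp only
        rw [if_neg, mul_zero]
        rintro rfl
        exact hk rfl
      · simp
    · by_cases hk : k.down ∈ M.Real l
      · exact (piece_single le_rfl (good_zero hk)).smul (h0 _ _)
      · have : μ l k.down = 0 := by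
          rw [hfix, if_neg, mul_zero, add_zero]
          · rw [W, Finset.sum_eq_zero, zero_div]
            exact fun a _ => Finset.sum_eq_zero fun I _ => by
              rw [if_neg fun h => hk h.2, zero_mul]
          · intro h
            exact hk (h ▸ good_real (good_univ 0 l) rfl)
        simp only [this, zero_mul]
        exact ⟨fun _ => le_rfl, Or.inl rfl⟩
  | succ n ih =>
    obtain ⟨κ, _, ν, h1, h2⟩ := ih
    refine ⟨Option (ι × Bool → κ), inferInstance, fun l k J => match k with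
      | none => ε / (M.Z μ l + ε) * if J = Set.univ then 1 else 0
      | some k => 1 / (M.Z μ l + ε) * M.W (fun m => ν m (k m)) l J, fun l J => ?_, fun l k => ?_⟩
    · rw [Fintype.sum_option, ← Finset.mul_sum, hfix]
      have : M.W μ l J = ∑ k : ι × Bool → κ, M.W (fun m => ν m (k m)) l J := by
        unfold W
        rw [Finset.sum_comm (s := (Finset.univ : Finset (ι × Bool → κ)))]
        refine Finset.sum_congr rfl fun a _ => ?_
        simp only [h1]
        exact sum_prod_sum _ _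
      rw [← this]
      ring
    · rcases k with _ | k
      · exact (piece_single (dl_pos hA _).2 (good_univ _ l)).smul (div_nonneg hε.le (hZ l).le)
      · exact (piece_W (dl_pos hA n).1.le (fun m => h2 m (k m)) l).smul
          (div_nonneg zero_le_one (hZ l).le)

omit [Fintype A] in
lemma Z0_piece {δ : ℝ} (hδ : 0 ≤ δ) {ν : ι × Bool → Set C → ℝ}
    (h : ∀ m, M.Piece M.R δ m (ν m)) {z₀ : FreeGroup ι → C} (hz₀ : Valid M.E z₀) :
    δ ^ Fintype.card (ι × Bool) * ∏ m, ∑ J, ν m J ≤ M.Z0 (M.p (z₀ 1)) ν := by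
  have h0 : ∀ m J, 0 ≤ ν m J := fun m => (h m).1
  have hn : ∀ I : ι × Bool → Set C,
      0 ≤ (if M.Val (M.p (z₀ 1)) I then (1 : ℝ) else 0) * ∏ m, ν m (I m) := fun I =>
    mul_nonneg (by split_ifs <;> norm_num) (Finset.prod_nonneg fun _ _ => h0 _ _)
  by_cases hz : ∃ m, ν m = 0
  · obtain ⟨m, hm⟩ := hz
    rw [Finset.prod_eq_zero (Finset.mem_univ m) (by simp [hm]), mul_zero]
    exact Finset.sum_nonneg fun I _ => hn I
  push Not at hz
  choose S hS h1 h2 using fun m => (h m).2.resolve_left (hz m)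
  obtain ⟨I, hI, hv⟩ := good_pos hS hz₀
  calc δ ^ Fintype.card (ι × Bool) * ∏ m, ∑ J, ν m J = ∏ m, (δ * ∑ J, ν m J) := by
        rw [Finset.prod_mul_distrib, Finset.prod_const, Finset.card_univ]
    _ ≤ ∏ m, ν m (I m) := Finset.prod_le_prod
        (fun m _ => mul_nonneg hδ (Finset.sum_nonneg fun _ _ => h0 _ _))
        fun m _ => h2 m _ (hI m)
    _ = (if M.Val (M.p (z₀ 1)) I then (1 : ℝ) else 0) * ∏ m, ν m (I m) := by
        rw [if_pos hv, one_mul]
    _ ≤ _ := Finset.single_le_sum (fun I _ => hn I) (Finset.mem_univ I)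

lemma continuous_W (l : ι × Bool) (J : Set C) : Continuous fun μ => M.W μ l J := by
  unfold W; fun_prop

lemma continuous_Z (l : ι × Bool) : Continuous fun μ => M.Z μ l :=
  continuous_finsetSum _ fun J _ => continuous_W l J

lemma exists_approx [Nonempty C] {z₀ : FreeGroup ι → C} (hz₀ : Valid M.E z₀) :
    ∃ δ > 0, ∀ ε > 0, ∃ μ : ι × Bool → Set C → ℝ, (∀ m J, 0 ≤ μ m J) ∧ (∀ m, ∑ J, μ m J = 1) ∧
      (∀ m J, J ∉ M.Real m → μ m J = 0) ∧ δ ≤ M.Z0 (M.p (z₀ 1)) μ ∧
      ∀ l J, |μ l J * M.Z μ l - M.W μ l J| ≤ ε := by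
  have hA : 0 < Fintype.card A := by
    have : Nonempty A := ⟨M.p (Classical.arbitrary C)⟩
    exact Fintype.card_pos
  have hd := (dl_pos (a := Fintype.card (ι × Bool)) hA M.R).1
  refine ⟨_, pow_pos hd (Fintype.card (ι × Bool)), fun ε hε => ?_⟩
  let T : (ι × Bool → Set C → ℝ) → ι × Bool → Set C → ℝ := fun μ l J =>
    (M.W μ l J + ε * if J = Set.univ then 1 else 0) / (M.Z μ l + ε)
  have hZ : ∀ μ : ι × Bool → Set C → ℝ, (∀ m J, 0 ≤ μ m J) → ∀ l, 0 < M.Z μ l + ε :=
    fun μ h0 l => add_pos_of_nonneg_of_pos (Finset.sum_nonneg fun _ _ => W_nonneg h0 _ _) hε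
  have T0 : ∀ μ : ι × Bool → Set C → ℝ, (∀ m J, 0 ≤ μ m J) → ∀ l J, 0 ≤ T μ l J :=
    fun μ h0 l J => div_nonneg (add_nonneg (W_nonneg h0 _ _)
      (mul_nonneg hε.le (by split_ifs <;> norm_num))) (hZ μ h0 l).le
  have T1 : ∀ μ : ι × Bool → Set C → ℝ, (∀ m J, 0 ≤ μ m J) → ∀ l, ∑ J, T μ l J = 1 := by
    intro μ h0 l
    simp only [T]
    rw [← Finset.sum_div, Finset.sum_add_distrib, ← Finset.mul_sum, div_eq_one_iff_eq (hZ μ h0 l).ne']
    simp [Z]
  let pos : ((ι × Bool) × Set C → ℝ) → ι × Bool → Set C → ℝ := fun x m J => max (x (m, J)) 0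
  have hpos : ∀ x m J, 0 ≤ pos x m J := fun x m J => le_max_right _ _
  have cpos : Continuous pos := by fun_prop
  obtain ⟨x, hx⟩ := brouwer_fintype (fun x i => T (pos x) i.1 i.2)
    (continuous_pi fun i => Continuous.div
      (((continuous_W i.1 i.2).comp cpos).add continuous_const)
      (((continuous_Z i.1).comp cpos).add continuous_const) fun x => (hZ _ (hpos x) _).ne')
    (fun x i => by
      rw [abs_of_nonneg (T0 _ (hpos x) _ _), ← T1 _ (hpos x) i.1]
      exact Finset.single_le_sum (fun J _ => T0 _ (hpos x) i.1 J) (Finset.mem_univ i.2))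
  have hfix : ∀ l J, pos x l J = T (pos x) l J := fun l J => by
    have := congrFun hx (l, J)
    simp only at this
    rw [this]
    exact max_eq_left (this ▸ T0 _ (hpos x) l J)
  have h1 : ∀ m, ∑ J, pos x m J = 1 := fun m => by
    rw [← T1 _ (hpos x) m]; exact Finset.sum_congr rfl fun J _ => hfix m J
  refine ⟨pos x, hpos x, h1, fun m J hJ => ?_, ?_, fun l J => ?_⟩
  · rw [hfix]
    simp only [T]
    rw [if_neg, mul_zero, add_zero]
    · rw [W, Finset.sum_eq_zero, zero_div]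
      exact fun a _ => Finset.sum_eq_zero fun I _ => by rw [if_neg fun h => hJ h.2, zero_mul]
    · intro h
      exact hJ (h ▸ good_real (good_univ 0 m) rfl)
  · obtain ⟨κ, _, ν, e1, e2⟩ := exists_dec (hpos x) hε hfix M.R
    have : M.Z0 (M.p (z₀ 1)) (pos x) =
        ∑ k : ι × Bool → κ, M.Z0 (M.p (z₀ 1)) fun m => ν m (k m) := by
      unfold Z0
      simp only [e1]
      exact sum_prod_sum _ _
    rw [this]
    refine le_trans ?_ (Finset.sum_le_sum fun k _ => Z0_piece hd.le (fun m => e2 m (k m)) hz₀)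
    rw [← Finset.mul_sum, ← Fintype.prod_sum (fun m k => ∑ J, ν m k J), Finset.prod_eq_one,
      mul_one]
    intro m _
    rw [Finset.sum_comm, ← h1 m]
    exact Finset.sum_congr rfl fun J _ => (e1 m J).symm
  · have e := hfix l J
    simp only [T] at e
    rw [eq_div_iff (hZ _ (hpos x) l).ne'] at e
    have h2 : pos x l J ≤ 1 := by
      rw [← h1 l]
      exact Finset.single_le_sum (fun J _ => hpos x l J) (Finset.mem_univ J)
    have h3 := hpos x l J
    rw [abs_le]
    split_ifs at e <;> constructor <;> nlinarith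

lemma exists_fixed [Nonempty C] {z₀ : FreeGroup ι → C} (hz₀ : Valid M.E z₀) :
    ∃ μ : ι × Bool → Set C → ℝ, (∀ m J, 0 ≤ μ m J) ∧ (∀ m, ∑ J, μ m J = 1) ∧
      (∀ m J, J ∉ M.Real m → μ m J = 0) ∧ 0 < M.Z0 (M.p (z₀ 1)) μ ∧
      ∀ l J, μ l J * M.Z μ l = M.W μ l J := by
  obtain ⟨δ, hδ, h⟩ := exists_approx hz₀
  let K : Set (ι × Bool → Set C → ℝ) := {μ | (∀ m J, 0 ≤ μ m J) ∧ (∀ m, ∑ J, μ m J = 1) ∧
      (∀ m J, J ∉ M.Real m → μ m J = 0) ∧ δ ≤ M.Z0 (M.p (z₀ 1)) μ}
  have hKc : IsClosed K := by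
    have c0 : Continuous fun μ : ι × Bool → Set C → ℝ => M.Z0 (M.p (z₀ 1)) μ := by
      unfold Z0; fun_prop
    simp only [K, Set.ofPred_and, Set.ofPred_forall]
    refine IsClosed.inter ?_ (IsClosed.inter ?_ (IsClosed.inter ?_ ?_))
    · exact isClosed_iInter fun m => isClosed_iInter fun J =>
        isClosed_le continuous_const (by fun_prop)
    · exact isClosed_iInter fun m => isClosed_eq (by fun_prop) continuous_const
    · exact isClosed_iInter fun m => isClosed_iInter fun J => isClosed_iInter fun _ =>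
        isClosed_eq (by fun_prop) continuous_const
    · exact isClosed_le continuous_const c0
  have hK : IsCompact K := by
    refine (isCompact_Icc (a := 0) (b := 1)).of_isClosed_subset hKc ?_
    rintro μ ⟨h0, h1, -⟩
    refine ⟨fun m J => h0 m J, fun m J => ?_⟩
    have := Finset.single_le_sum (fun J _ => h0 m J) (Finset.mem_univ J)
    rw [h1 m] at this
    exact this
  let φ : (ι × Bool → Set C → ℝ) → ((ι × Bool) × Set C → ℝ) := fun μ i =>
    μ i.1 i.2 * M.Z μ i.1 - M.W μ i.1 i.2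
  have hφ : Continuous φ := continuous_pi fun i =>
    ((by fun_prop : Continuous fun μ : ι × Bool → Set C → ℝ => μ i.1 i.2).mul
      (continuous_Z _)).sub (continuous_W _ _)
  have hmem : (0 : (ι × Bool) × Set C → ℝ) ∈ φ '' K := by
    rw [← (hK.image hφ).isClosed.closure_eq, Metric.mem_closure_iff]
    intro ε hε
    obtain ⟨μ, h0, h1, h2, h3, h4⟩ := h (ε / 2) (half_pos hε)
    refine ⟨_, ⟨μ, ⟨h0, h1, h2, h3⟩, rfl⟩, ?_⟩
    rw [dist_comm, dist_zero_right]
    refine lt_of_le_of_lt ((pi_norm_le_iff_of_nonneg (half_pos hε).le).2 fun i => h4 _ _)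
      (half_lt_self hε)
  obtain ⟨μ, ⟨h0, h1, h2, h3⟩, h4⟩ := hmem
  exact ⟨μ, h0, h1, h2, hδ.trans_le h3, fun l J => sub_eq_zero.1 (congrFun h4 (l, J))⟩

end TM

end Pool.Agent.MP_3bdc7b_an
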