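import Mathlib.GroupTheory.Finiteness
import Mathlib.GroupTheory.Index
import Mathlib.Topology.Constructions
import Mathlib.GroupTheory.FreeGroup.IsFreeGroup

/-!
Subshifts over groups.
-/

namespace Pool.Agent.MP_3bdc7b_an

variable {G : Type*} [Group G]

/-- the left shift action `(g x)(h) = x (g⁻¹ h)` -/
def shift {A : Type*} (g : G) (x : G → A) : G → A := fun h => x (g⁻¹ * h)

/-- `Y` is a subshift of finite type: it is defined by a set `P` of allowed patterns on a finite
window `W` -/
def IsSFT {B : Type*} (Y : Set (G → B)) : Prop :=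
  ∃ (W : Finset G) (P : Set (W → B)), Y = {y | ∀ g : G, (fun w : W => shift g y w) ∈ P}

/-- `X` is a sofic subshift: the image of a subshift of finite type over a finite alphabet under
a continuous equivariant map -/
def IsSoficShift {A : Type*} [TopologicalSpace A] (X : Set (G → A)) : Prop :=
  ∃ (n : ℕ) (Y : Set (G → Fin n)) (π : (G → Fin n) → G → A), IsSFT Y ∧ ContinuousOn π Y ∧
    (∀ g : G, ∀ y ∈ Y, π (shift g y) = shift g (π y)) ∧ π '' Y = X

/-- strong irreducibility -/
def StronglyIrreducible {A : Type*} (X : Set (G → A)) : Prop :=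
  ∃ Δ : Finset G, ∀ x₁ ∈ X, ∀ x₂ ∈ X, ∀ Ω₁ Ω₂ : Finset G, (∀ a ∈ Ω₁, ∀ d ∈ Δ, a * d ∉ Ω₂) →
    ∃ x ∈ X, (∀ g ∈ Ω₁, x g = x₁ g) ∧ ∀ g ∈ Ω₂, x g = x₂ g

/-- every injective cellular automaton (continuous equivariant self-map) of `X` is surjective -/
def Surjunctive {A : Type*} [TopologicalSpace A] (X : Set (G → A)) : Prop :=
  ∀ τ : X → X, Continuous τ →
    (∀ (g : G) (x y : X), (y : G → A) = shift g x → (τ y : G → A) = shift g (τ x)) →
    Function.Injective τ → Function.Surjective τ

/-- every finitely generated subgroup has a free subgroup of finite index -/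
def LocallyVirtuallyFree (G : Type*) [Group G] : Prop :=
  ∀ K : Subgroup G, K.FG → ∃ H : Subgroup K, H.FiniteIndex ∧ IsFreeGroup H

end Pool.Agent.MP_3bdc7b_an
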