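import Mathlib.Data.Set.Finite.List
import Mathlib.GroupTheory.Schreier
import Mathlib.GroupTheory.FreeGroup.NielsenSchreier
import Mathlib.Topology.Connected.Separation
import Mathlib.Topology.Separation.Lemmas
import Pool.Agent.MP_3bdc7b_an.BP
import Pool.Agent.MP_3bdc7b_an.Defs

-- ======== part 0: formerly Pool.Agent.MP_3bdc7b_an.Core
section MrgPart0

/-!
Periodic points of strongly irreducible nearest neighbour models on the Cayley tree.
-/

namespace Pool.Agent.MP_3bdc7b_an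

open Classical

universe u v w

variable {ι : Type u} {C : Type v} {A : Type w} [DecidableEq ι] [Fintype ι] [Fintype C]
  [Fintype A]

namespace TM

variable (M : TM ι C A)

/-- the weight of a vertex type -/
noncomputable def pw (μ : ι × Bool → Set C → ℝ) (t : A × (ι × Bool → Set C)) : ℝ :=
  (if M.Val t.1 t.2 then 1 else 0) * ∏ m, μ m (t.2 m)

/-- the pair of states on the edge in direction `l` -/
def key (l : ι × Bool) (t : A × (ι × Bool → Set C)) : Set C × Set C :=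
  (t.2 l, M.Psi (bar l) t.1 t.2)

variable {M}

lemma marg {μ : ι × Bool → Set C → ℝ} (h1 : ∀ m, ∑ J, μ m J = 1)
    (h2 : ∀ m J, J ∉ M.Real m → μ m J = 0) (h3 : ∀ l J, μ l J * M.Z μ l = M.W μ l J)
    (l : ι × Bool) (I' I : Set C) :
    ∑ t, (if M.key l t = (I', I) then M.pw μ t else 0) =
      (if M.Cmp l I' I then 1 else 0) * (μ l I' * μ (bar l) I) * M.Z μ (bar l) := by
  rw [mul_assoc, mul_assoc, h3, W, Finset.mul_sum, Finset.mul_sum, Fintype.sum_prod_type]
  refine Finset.sum_congr rfl fun a _ => ?_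
  rw [← sum_fix μ l (h1 l) _ (fun J b => by
    have := M.psi_update (bar l) a J b
    rw [bar_bar] at this
    simp only [this]) I', Finset.mul_sum]
  refine Finset.sum_congr rfl fun J _ => ?_
  simp only [key, pw, Prod.mk.injEq]
  by_cases e1 : J l = I'
  · by_cases e2 : M.Psi (bar l) a J = I
    · subst e1 e2
      rw [M.val_iff l]
      by_cases e3 : M.Cmp l (J l) (M.Psi (bar l) a J)
      · by_cases e4 : ∀ m, J m ∈ M.Real m
        · have : M.Psi (bar l) a J ∈ M.Real (bar l) :=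
            real_psi _ _ e4 ⟨_, e3.choose_spec.1⟩
          simp [e3, this]
        · push Not at e4
          obtain ⟨m, hm⟩ := e4
          rw [Finset.prod_eq_zero (Finset.mem_univ m) (h2 m _ hm)]
          simp
      · simp [e3]
    · simp [e2]
  · simp [e1]

lemma Z_bar {μ : ι × Bool → Set C → ℝ} (h0 : ∀ m J, 0 ≤ μ m J) (h1 : ∀ m, ∑ J, μ m J = 1)
    (h2 : ∀ m J, J ∉ M.Real m → μ m J = 0) (h3 : ∀ l J, μ l J * M.Z μ l = M.W μ l J)
    {a : A} (h4 : 0 < M.Z0 a μ) (l : ι × Bool) : M.Z μ (bar l) = M.Z μ l := by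
  let Q : ι × Bool → ℝ := fun l => ∑ I', ∑ I,
    (if M.Cmp l I' I then 1 else 0) * (μ l I' * μ (bar l) I)
  have e1 : ∀ l, ∑ t, M.pw μ t = Q l * M.Z μ (bar l) := by
    intro l
    simp only [Q, Finset.sum_mul, ← marg h1 h2 h3]
    rw [← Fintype.sum_prod_type (f := fun k : Set C × Set C =>
      ∑ t, (if M.key l t = (k.1, k.2) then M.pw μ t else 0)), Finset.sum_comm]
    refine Finset.sum_congr rfl fun t _ => ?_
    simp
  have e2 : Q (bar l) = Q l := by
    simp only [Q]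
    rw [Finset.sum_comm]
    refine Finset.sum_congr rfl fun I' _ => Finset.sum_congr rfl fun I _ => ?_
    have : M.Cmp (bar l) I I' ↔ M.Cmp l I' I :=
      ⟨fun h => by simpa using M.cmp_symm h, M.cmp_symm⟩
    rw [bar_bar, mul_comm (μ l I')]
    simp only [this]
  have e3 : 0 < ∑ t, M.pw μ t := by
    rw [Fintype.sum_prod_type]
    refine h4.trans_le (Finset.single_le_sum (f := fun a => ∑ I, M.pw μ (a, I))
      (fun a _ => Finset.sum_nonneg fun I _ => mul_nonneg (by split_ifs <;> norm_num)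
        (Finset.prod_nonneg fun _ _ => h0 _ _)) (Finset.mem_univ a))
  have e4 := e1 (bar l)
  rw [e2, bar_bar, e1 l] at e4
  have e5 : Q l ≠ 0 := by
    intro h
    rw [e1 l, h, zero_mul] at e3
    exact lt_irrefl _ e3
  exact mul_left_cancel₀ e5 e4

theorem exists_periodic {z₀ : FreeGroup ι → C} (hz₀ : Valid M.E z₀) :
    ∃ z, Valid M.E z ∧ M.p (z 1) = M.p (z₀ 1) ∧ ∃ N : Subgroup (FreeGroup ι), N.FiniteIndex ∧
      ∀ k ∈ N, ∀ u, M.p (z (k * u)) = M.p (z u) := by
  have : Nonempty C := ⟨z₀ 1⟩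
  obtain ⟨μ, h0, h1, h2, h4, h3⟩ := exists_fixed hz₀
  have hp : ∀ t, 0 ≤ M.pw μ t := fun t => mul_nonneg (by split_ifs <;> norm_num)
    (Finset.prod_nonneg fun _ _ => h0 _ _)
  obtain ⟨q, hq, hq'⟩ := exists_nat_solution (M.pw μ) hp (fun s t => M.key (s, true) t)
    (fun s t => (M.key (s, false) t).swap) (fun s k => by
      obtain ⟨I', I⟩ := k
      have e : ∀ t, ((M.key (s, false) t).swap = (I', I)) = (M.key (s, false) t = (I, I')) :=
        fun t => propext (Prod.swap_eq_iff_eq_swap)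
      have e1 := marg h1 h2 h3 (s, true) I' I
      have e2 := marg h1 h2 h3 (s, false) I I'
      have e3 : M.Cmp (s, false) I I' ↔ M.Cmp (s, true) I' I :=
        ⟨fun h => M.cmp_symm h, fun h => M.cmp_symm h⟩
      have e4 := Z_bar h0 h1 h2 h3 h4 (s, true)
      simp only [e]
      refine e1.trans (Eq.trans ?_ e2.symm)
      simp only [e3, bar, Bool.not_true, Bool.not_false] at e4 ⊢
      rw [e4, mul_comm (μ (s, false) I)])
  obtain ⟨ρ, hρ⟩ := exists_perm_model q _ _ hq'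
  obtain ⟨I₀, -, hI₀⟩ : ∃ I ∈ Finset.univ, M.pw μ (M.p (z₀ 1), I) ≠ 0 :=
    Finset.exists_ne_zero_of_sum_ne_zero h4.ne'
  let v₀ : Σ t, Fin (q t) := ⟨(M.p (z₀ 1), I₀), ⟨0, Nat.pos_of_ne_zero ((hq _).2 hI₀)⟩⟩
  let θ : FreeGroup ι →* Equiv.Perm (Σ t, Fin (q t)) := FreeGroup.lift fun s => (ρ s)⁻¹
  let τ : FreeGroup ι → A × (ι × Bool → Set C) := fun g => (θ g⁻¹ v₀).1
  have hs : ∀ (g : FreeGroup ι) (s : ι), θ (g * gen (s, true))⁻¹ v₀ = ρ s (θ g⁻¹ v₀) := by
    intro g s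
    have : gen (s, true) = FreeGroup.of s := rfl
    rw [this, mul_inv_rev, map_mul, map_inv]
    simp [θ]
  have hk : ∀ (g : FreeGroup ι) (s : ι),
      (M.key (s, false) (τ (g * gen (s, true)))).swap = M.key (s, true) (τ g) := by
    intro g s
    simp only [τ]
    rw [hs]
    exact hρ s _
  have hI : ∀ (g : FreeGroup ι) (l : ι × Bool),
      (τ g).2 l = M.Psi l (τ (g * gen l)).1 (τ (g * gen l)).2 := by
    rintro g ⟨s, b⟩
    cases b
    · have := hk (g * gen (s, false)) s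
      have e : g * gen (s, false) * gen (s, true) = g := by
        have : gen (s, false) = (gen (s, true))⁻¹ := gen_bar (s, true)
        rw [this]; group
      rw [e] at this
      exact congrArg Prod.snd this
    · exact (congrArg Prod.fst (hk g s)).symm
  have h1' : τ 1 = (M.p (z₀ 1), I₀) := by
    simp only [τ, inv_one, map_one]
    rfl
  obtain ⟨z, hz, hz'⟩ := exists_label M.symm (fun g c => M.p c = (τ g).1) (fun g => (τ g).2)
    (by
      rw [h1']
      by_contra h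
      exact hI₀ (by rw [pw, if_neg (show ¬ M.Val _ _ from h), zero_mul]))
    (fun g l c hc => by rw [hI] at hc; exact hc)
  refine ⟨z, hz, by rw [hz', h1'], θ.ker, inferInstance, fun k hk u => ?_⟩
  rw [hz', hz']
  simp only [τ]
  rw [mul_inv_rev, map_mul, map_inv θ k, MonoidHom.mem_ker.1 hk]
  simp

end TM

end Pool.Agent.MP_3bdc7b_an

end MrgPart0

-- ======== part 1: formerly Pool.Agent.MP_3bdc7b_an.Bridge
section MrgPart1

/-!
From sofic subshifts over a group with a virtually free subgroup to models on the Cayley tree.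
-/

namespace Pool.Agent.MP_3bdc7b_an

open Classical

variable {G : Type*} [Group G]

lemma shift_shift {A : Type*} (g h : G) (x : G → A) : shift g (shift h x) = shift (g * h) x := by
  funext k; simp [shift, mul_assoc]

lemma shift_one {A : Type*} (x : G → A) : shift (1 : G) x = x := by
  funext k; simp [shift]

lemma shift_inv_apply {A : Type*} (g h : G) (x : G → A) : shift g⁻¹ x h = x (g * h) := by
  simp [shift]

omit [Group G] in
lemma exists_memory {B A : Type*} [TopologicalSpace B] [DiscreteTopology B] [TopologicalSpace A]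
    [DiscreteTopology A] {Y : Set (G → B)} (hY : IsCompact Y) {f : (G → B) → A}
    (hf : ContinuousOn f Y) :
    ∃ M : Finset G, ∀ y ∈ Y, ∀ y' ∈ Y, (∀ g ∈ M, y g = y' g) → f y = f y' := by
  have h : ∀ y ∈ Y, ∃ M : Finset G, ∀ y' ∈ Y, (∀ g ∈ M, y' g = y g) → f y' = f y := by
    intro y hy
    have h1 : f ⁻¹' {f y} ∈ nhdsWithin y Y := hf y hy ((isOpen_discrete _).mem_nhds rfl)
    obtain ⟨U, hU, h2⟩ := mem_nhdsWithin_iff_exists_mem_nhds_inter.1 h1
    rw [nhds_pi, Filter.mem_pi'] at hU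
    obtain ⟨M, t, ht, hM⟩ := hU
    refine ⟨M, fun y' hy' h => h2 ⟨hM fun g hg => ?_, hy'⟩⟩
    rw [h g hg]
    exact mem_of_mem_nhds (ht g)
  choose! M hM using h
  obtain ⟨s, hs, hc⟩ := hY.elim_nhds_subcover (fun y => {y' | ∀ g ∈ M y, y' g = y g})
    (fun y _ => by
      have : IsOpen (Set.pi (M y : Set G) fun g => ({y g} : Set B)) :=
        isOpen_set_pi (M y).finite_toSet fun _ _ => isOpen_discrete _
      exact this.mem_nhds fun _ _ => rfl)
  refine ⟨s.biUnion M, fun y hy y' hy' h => ?_⟩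
  obtain ⟨y₀, h0, h1⟩ := Set.mem_iUnion₂.1 (hc hy)
  rw [hM y₀ (hs y₀ h0) y hy h1, hM y₀ (hs y₀ h0) y' hy' fun g hg => ?_]
  rw [← h g (Finset.mem_biUnion.2 ⟨y₀, h0, hg⟩), h1 g hg]

theorem bridge {ι T B A : Type*} [Fintype ι] [DecidableEq ι] [Finite T] [Finite B] [Finite A]
    (φ : FreeGroup ι →* G) (e : T → G) (K : Subgroup G)
    (hinj : ∀ u t u' t', φ u * e t = φ u' * e t' → u = u' ∧ t = t')
    (hK : ∀ g, g ∈ K ↔ ∃ u t, g = φ u * e t)
    (W : Finset G) (P : Set (W → B)) (Y : Set (G → B))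
    (hY : Y = {y | ∀ g : G, (fun w : W => shift g y w) ∈ P}) (hW : ∀ w ∈ W, w ∈ K)
    (π : (G → B) → G → A) (hπ : ∀ g : G, ∀ y ∈ Y, π (shift g y) = shift g (π y))
    (Mp : Finset G) (hMp : ∀ y ∈ Y, ∀ y' ∈ Y, (∀ g ∈ Mp, y g = y' g) → π y 1 = π y' 1)
    (hMK : ∀ g ∈ Mp, g ∈ K) (hSI : StronglyIrreducible (π '' Y))
    (Ω : Finset G) (hΩ : ∀ g ∈ Ω, g ∈ K) (y₀ : G → B) (hy₀ : y₀ ∈ Y) :
    ∃ y ∈ Y, (∀ g ∈ Ω, π y g = π y₀ g) ∧ ∃ N S : Set G, S.Finite ∧ (∀ n ∈ N, n ∈ K) ∧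
      (∀ g ∈ K, ∃ n ∈ N, ∃ t ∈ S, g = n * t) ∧ ∀ n ∈ N, ∀ g ∈ K, π y (n * g) = π y g := by
  have hYs : ∀ g : G, ∀ y ∈ Y, shift g y ∈ Y := by
    intro g y hy
    rw [hY] at hy ⊢
    intro h
    simp only [shift_shift]
    exact hy _
  have heK : ∀ t, e t ∈ K := fun t => (hK _).2 ⟨1, t, by simp⟩
  have hφK : ∀ u, φ u ∈ K := fun u => by
    obtain ⟨u₀, t₀, -⟩ := (hK 1).1 K.one_mem
    have := K.mul_mem ((hK _).2 ⟨u, t₀, rfl⟩) (K.inv_mem (heK t₀))
    simpa using this
  have hφ : Function.Injective φ := fun u u' h => by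
    obtain ⟨u₀, t₀, -⟩ := (hK 1).1 K.one_mem
    exact (hinj u t₀ u' t₀ (by rw [h])).1
  let Ω' : Set G := ↑Ω ∪ Set.range e
  have hΩ'f : Ω'.Finite := Ω.finite_toSet.union (Set.finite_range e)
  have hΩ'K : ∀ g ∈ Ω', g ∈ K := by
    rintro g (hg | ⟨t, rfl⟩)
    · exact hΩ g hg
    · exact heK t
  -- the radius of the labels
  obtain ⟨r, hr⟩ : ∃ r : ℕ, ∀ a ∈ Ω', ∀ b ∈ (↑W ∪ ↑Mp : Set G),
      ∃ w : List (ι × Bool), w.length ≤ r ∧ ∃ t, a * b = φ (FreeGroup.mk w) * e t := by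
    have hf : (Set.image2 (· * ·) Ω' (↑W ∪ ↑Mp : Set G)).Finite :=
      hΩ'f.image2 _ (W.finite_toSet.union Mp.finite_toSet)
    have h1 : ∀ g ∈ K, ∃ w : List (ι × Bool), ∃ t, g = φ (FreeGroup.mk w) * e t := fun g hg => by
      obtain ⟨u, t, h⟩ := (hK g).1 hg
      exact ⟨u.toWord, t, by rw [FreeGroup.mk_toWord]; exact h⟩
    choose! w hw using h1
    obtain ⟨r, hr⟩ := (hf.image fun g => (w g).length).bddAbove
    refine ⟨r, fun a ha b hb => ⟨w (a * b), hr ⟨_, ⟨a, ha, b, hb, rfl⟩, rfl⟩, hw _ ?_⟩⟩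
    refine K.mul_mem (hΩ'K a ha) ?_
    rcases hb with hb | hb
    · exact hW b hb
    · exact hMK b hb
  let Lr := {w : List (ι × Bool) // w.length ≤ r}
  have : Finite Lr := List.finite_length_le _ r
  let lab : (G → B) → Lr × T → B := fun y i => y (φ (FreeGroup.mk i.1.1) * e i.2)
  have hwd : ∀ y ∈ Y, ∀ y' ∈ Y, lab y = lab y' → ∀ a ∈ Ω', π y a = π y' a := by
    intro y hy y' hy' h a ha
    have e1 : ∀ y ∈ Y, π y a = π (shift a⁻¹ y) 1 := fun y hy => by
      rw [hπ _ y hy, shift_inv_apply, mul_one]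
    rw [e1 y hy, e1 y' hy']
    refine hMp _ (hYs _ _ hy) _ (hYs _ _ hy') fun g hg => ?_
    obtain ⟨w, hw, t, ht⟩ := hr a ha g (Or.inr hg)
    rw [shift_inv_apply, shift_inv_apply, ht]
    exact congrFun h (⟨w, hw⟩, t)
  let C := {c : Lr × T → B // ∃ y ∈ Y, c = lab y}
  let E : ι × Bool → C → C → Prop := fun l c c' =>
    ∃ y ∈ Y, c.1 = lab y ∧ c'.1 = lab (shift (φ (gen l))⁻¹ y)
  let p : C → Ω' → A := fun c a => π c.2.choose a
  have hp : ∀ (c : C), ∀ y ∈ Y, c.1 = lab y → ∀ a : Ω', p c a = π y a := fun c y hy h a =>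
    hwd _ c.2.choose_spec.1 _ hy (c.2.choose_spec.2.symm.trans h) a a.2
  let zz : ∀ y ∈ Y, FreeGroup ι → C := fun y hy u =>
    ⟨lab (shift (φ u)⁻¹ y), _, hYs _ _ hy, rfl⟩
  have hzz : ∀ y hy, Valid E (zz y hy) := fun y hy g l =>
    ⟨_, hYs (φ g)⁻¹ _ hy, rfl, by simp only [zz, shift_shift, map_mul, mul_inv_rev]⟩
  have hpz : ∀ y hy u (a : Ω'), p (zz y hy u) a = π y (φ u * a) := fun y hy u a => by
    rw [hp _ _ (hYs (φ u)⁻¹ _ hy) rfl, hπ _ y hy, shift_inv_apply]
  -- from labelings to configurations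
  have hback : ∀ z, Valid E z → ∃ y ∈ Y, ∀ u (a : Ω'), π y (φ u * a) = p (z u) a := by
    intro z hz
    let nil : Lr := ⟨[], Nat.zero_le _⟩
    let y : G → B := fun g => if h : ∃ u t, g = φ u * e t then
      (z h.choose).1 (nil, h.choose_spec.choose) else y₀ g
    have y1 : ∀ u t, y (φ u * e t) = (z u).1 (nil, t) := by
      intro u t
      have h : ∃ u' t', φ u * e t = φ u' * e t' := ⟨u, t, rfl⟩
      obtain ⟨h1, h2⟩ := hinj _ _ _ _ h.choose_spec.choose_spec
      simp only [y, dif_pos h]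
      rw [← h2, ← h1]
    have y2 : ∀ g, g ∉ K → y g = y₀ g := fun g hg => by
      simp only [y]
      rw [dif_neg fun h => hg ((hK g).2 h)]
    have y3 : ∀ (w : List (ι × Bool)) (hw : w.length ≤ r) u t,
        (z u).1 (⟨w, hw⟩, t) = y (φ u * (φ (FreeGroup.mk w) * e t)) := by
      intro w
      induction w with
      | nil =>
        intro hw u t
        have : FreeGroup.mk ([] : List (ι × Bool)) = 1 := rfl
        rw [this, map_one, one_mul, y1]
      | cons l w ih =>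
        intro hw u t
        obtain ⟨y', -, h1, h2⟩ := hz u l
        have := ih (le_trans (Nat.le_succ _) hw) (u * gen l) t
        rw [h2] at this
        rw [h1]
        simp only [lab, shift_inv_apply, mk_cons, map_mul, mul_assoc] at this ⊢
        exact this
    have y4 : ∀ u, (z u).1 = lab (shift (φ u)⁻¹ y) := fun u => funext fun i => by
      simp only [lab, shift_inv_apply]
      exact y3 i.1.1 i.1.2 u i.2
    have hy : y ∈ Y := by
      rw [hY]
      intro g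
      by_cases hg : g⁻¹ ∈ K
      · obtain ⟨u, t, h⟩ := (hK _).1 hg
        obtain ⟨y', hy', h'⟩ := (z u).2
        rw [hY] at hy'
        convert hy' (e t)⁻¹ using 2 with w
        obtain ⟨w', hw', t', ht'⟩ := hr (e t) (Or.inr ⟨t, rfl⟩) w (Or.inl w.2)
        rw [shift_inv_apply, shift, h, mul_assoc, ht', ← y3 w' hw', h']
      · have h0 := hy₀
        rw [hY] at h0
        convert h0 g using 2 with w
        refine y2 _ fun h => hg ?_
        simpa using K.mul_mem h (K.inv_mem (hW w w.2))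
    exact ⟨y, hy, fun u a => by rw [hp _ _ (hYs _ _ hy) (y4 u), hπ _ y hy, shift_inv_apply]⟩
  obtain ⟨Δ, hΔ⟩ := hSI
  obtain ⟨R, hR⟩ : ∃ R : ℕ, ∀ u : FreeGroup ι, ∀ a ∈ Ω', ∀ d ∈ Δ, ∀ b ∈ Ω',
      φ u = a * d * b⁻¹ → u.norm < R := by
    have hf : (Set.image2 (fun a b => a * b⁻¹) (Set.image2 (· * ·) Ω' (↑Δ : Set G)) Ω').Finite :=
      (hΩ'f.image2 _ Δ.finite_toSet).image2 _ hΩ'f
    obtain ⟨R, hR⟩ := ((hf.preimage hφ.injOn).image FreeGroup.norm).bddAbove
    exact ⟨R + 1, fun u a ha d hd b hb h => Nat.lt_succ_of_le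
      (hR ⟨u, ⟨_, ⟨a, ha, d, hd, rfl⟩, b, hb, h.symm⟩, rfl⟩)⟩
  let M : TM ι C (Ω' → A) :=
    { E := E
      p := p
      symm := by
        rintro l c c' ⟨y, hy, h1, h2⟩
        refine ⟨_, hYs _ _ hy, h2, ?_⟩
        rw [shift_shift, gen_bar, map_inv, inv_inv, mul_inv_cancel, shift_one, h1]
      ess := by
        rintro ⟨c, y, hy, rfl⟩
        exact ⟨zz y hy, hzz y hy, by simp [zz, shift_one]⟩
      R := R
      si := by
        intro z₁ z₂ h₁ h₂ Ω₁ Ω₂ f₁ f₂ hsep
        obtain ⟨y₁, hy₁, e₁⟩ := hback z₁ h₁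
        obtain ⟨y₂, hy₂, e₂⟩ := hback z₂ h₂
        obtain ⟨_, ⟨y, hy, rfl⟩, k₁, k₂⟩ := hΔ _ ⟨y₁, hy₁, rfl⟩ _ ⟨y₂, hy₂, rfl⟩
          (f₁.image2 (fun u a => φ u * a) hΩ'f).toFinset
          (f₂.image2 (fun u a => φ u * a) hΩ'f).toFinset (by
            intro g hg d hd hg'
            rw [Set.Finite.mem_toFinset] at hg hg'
            obtain ⟨u, hu, a, ha, rfl⟩ := hg
            obtain ⟨u', hu', b, hb, h⟩ := hg'
            refine absurd (hR (u⁻¹ * u') a ha d hd b hb ?_) (not_lt.2 (hsep u hu u' hu'))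
            simp only at h
            rw [map_mul, map_inv, inv_mul_eq_iff_eq_mul, ← mul_assoc, ← mul_assoc, ← h]
            simp)
        refine ⟨zz y hy, hzz y hy, fun u hu => funext fun a => ?_, fun u hu => funext fun a => ?_⟩
        · rw [hpz y hy, ← e₁, k₁ _ ((Set.Finite.mem_toFinset _).2 ⟨u, hu, a, a.2, rfl⟩)]
        · rw [hpz y hy, ← e₂, k₂ _ ((Set.Finite.mem_toFinset _).2 ⟨u, hu, a, a.2, rfl⟩)] }
  have : Finite Ω' := hΩ'f
  have := Fintype.ofFinite C
  have := Fintype.ofFinite (Ω' → A)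
  obtain ⟨z, hz, h1, N, hN, h2⟩ := M.exists_periodic (hzz y₀ hy₀)
  obtain ⟨y, hy, h3⟩ := hback z hz
  refine ⟨y, hy, fun g hg => ?_, φ '' N,
    Set.range fun i : (FreeGroup ι ⧸ N) × T => φ (i.1.out)⁻¹ * e i.2, Set.finite_range _,
    ?_, fun g hg => ?_, ?_⟩
  · have e1 := h3 1 ⟨g, Or.inl hg⟩
    have e2 := hpz y₀ hy₀ 1 ⟨g, Or.inl hg⟩
    simp only [map_one, one_mul] at e1 e2
    rw [e1, ← e2]
    exact congrFun h1 _
  · rintro _ ⟨u, -, rfl⟩
    exact hφK u
  · obtain ⟨u, t, rfl⟩ := (hK g).1 hg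
    obtain ⟨k, hk⟩ := QuotientGroup.mk_out_eq_mul N u⁻¹
    refine ⟨φ k, ⟨k, k.2, rfl⟩, _, ⟨(QuotientGroup.mk u⁻¹, t), rfl⟩, ?_⟩
    simp only [hk]
    simp [mul_assoc]
  · rintro _ ⟨k, hk, rfl⟩ g hg
    obtain ⟨u, t, rfl⟩ := (hK g).1 hg
    have e1 := h3 (k * u) ⟨e t, Or.inr ⟨t, rfl⟩⟩
    have e2 := h3 u ⟨e t, Or.inr ⟨t, rfl⟩⟩
    rw [map_mul, mul_assoc] at e1
    exact e1.trans ((congrFun (h2 k hk u) _).trans e2.symm)

end Pool.Agent.MP_3bdc7b_an

end MrgPart1

-- ======== part 2: formerly Pool.Agent.MP_3bdc7b_an.Main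
section MrgPart2

/-!
Surjunctivity of strongly irreducible sofic subshifts over locally virtually free groups.
-/

namespace Pool.Agent.MP_3bdc7b_an

open Classical

universe u

lemma finite_of_fg_freeGroup {ι : Type*} (h : Group.FG (FreeGroup ι)) : Finite ι := by
  obtain ⟨S, hS, hf⟩ := Group.fg_iff.1 h
  have hfin : (⋃ s ∈ S, {i | ∃ b, (i, b) ∈ s.toWord}).Finite := by
    refine hf.biUnion fun s _ => ((List.finite_toSet s.toWord).image Prod.fst).subset ?_
    rintro i ⟨b, hb⟩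
    exact ⟨(i, b), hb, rfl⟩
  rw [← Set.finite_univ_iff]
  refine hfin.subset fun i _ => ?_
  by_contra hi
  let f : FreeGroup ι →* Multiplicative ℤ :=
    FreeGroup.lift fun j => if j = i then Multiplicative.ofAdd 1 else 1
  have h1 : ∀ w : List (ι × Bool), (∀ b, (i, b) ∉ w) → f (FreeGroup.mk w) = 1 := by
    intro w
    induction w with
    | nil => intro _; exact map_one f
    | cons l w ih =>
      intro hw
      rw [mk_cons, map_mul, ih fun b hb => hw b (List.mem_cons_of_mem _ hb), mul_one]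
      obtain ⟨j, b⟩ := l
      have hj : j ≠ i := by
        rintro rfl
        exact hw b List.mem_cons_self
      have e : f (FreeGroup.of j) = 1 := by simp [f, hj]
      cases b
      · have : gen (j, false) = (FreeGroup.of j)⁻¹ := gen_bar (j, true)
        rw [this, map_inv, e, inv_one]
      · exact e
  have h2 : Subgroup.closure S ≤ f.ker := by
    rw [Subgroup.closure_le]
    intro s hs
    have := h1 s.toWord fun b hb => hi (Set.mem_biUnion hs ⟨b, hb⟩)
    rwa [FreeGroup.mk_toWord] at this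
  have h3 : f (FreeGroup.of i) = 1 := h2 (hS ▸ Subgroup.mem_top _)
  simp [f] at h3

variable {G : Type u} [Group G]

lemma exists_coordinates (hG : LocallyVirtuallyFree G) (K : Subgroup G) (hK : K.FG) :
    ∃ (ι T : Type u) (_ : Finite ι) (_ : Finite T) (φ : FreeGroup ι →* G) (e : T → G),
      (∀ u t u' t', φ u * e t = φ u' * e t' → u = u' ∧ t = t') ∧
      ∀ g, g ∈ K ↔ ∃ u t, g = φ u * e t := by
  obtain ⟨H, hH, hF⟩ := hG K hK
  have : Group.FG K := (Group.fg_iff_subgroup_fg K).2 hK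
  let ψ := IsFreeGroup.mulEquiv H
  have hfg : Group.FG (FreeGroup (IsFreeGroup.Generators H)) :=
    Group.fg_of_surjective (f := ψ.symm.toMonoidHom) ψ.symm.surjective
  refine ⟨IsFreeGroup.Generators H, K ⧸ H, finite_of_fg_freeGroup hfg, inferInstance,
    K.subtype.comp (H.subtype.comp ψ.toMonoidHom), fun t => ((t.out⁻¹ : K) : G), ?_, ?_⟩
  · intro u t u' t' h
    have h1 : ((ψ u : H) : K) * t.out⁻¹ = ((ψ u' : H) : K) * t'.out⁻¹ := Subtype.ext h
    have h2 : t = t' := by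
      rw [← QuotientGroup.out_eq' t, ← QuotientGroup.out_eq' t', QuotientGroup.eq]
      have : t.out⁻¹ * t'.out = ((ψ u : H) : K)⁻¹ * ((ψ u' : H) : K) := by
        rw [eq_inv_mul_iff_mul_eq, ← mul_assoc, h1]; simp
      rw [this]
      exact H.mul_mem (H.inv_mem (ψ u).2) (ψ u').2
    subst h2
    exact ⟨ψ.injective (Subtype.ext (mul_right_cancel h1)), rfl⟩
  · intro g
    constructor
    · intro hg
      obtain ⟨k, hk⟩ := QuotientGroup.mk_out_eq_mul H (⟨g, hg⟩ : K)⁻¹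
      refine ⟨ψ.symm k, QuotientGroup.mk (⟨g, hg⟩ : K)⁻¹, ?_⟩
      simp only [hk]
      simp
    · rintro ⟨u, t, rfl⟩
      exact K.mul_mem (Subtype.property _) (Subtype.property _)

lemma IsSFT.isClosed {B : Type*} [TopologicalSpace B] [DiscreteTopology B] {Y : Set (G → B)}
    (h : IsSFT Y) : IsClosed Y := by
  obtain ⟨W, P, rfl⟩ := h
  rw [Set.ofPred_forall]
  refine isClosed_iInter fun g => (isClosed_discrete P).preimage
    (f := fun (y : G → B) (w : W) => shift g y w) ?_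
  exact continuous_pi fun w => continuous_apply _

omit [Group G] in
lemma mem_of_forall_finset {A : Type*} [TopologicalSpace A] {X : Set (G → A)} (hX : IsClosed X)
    {x : G → A} (h : ∀ Ω : Finset G, ∃ y ∈ X, ∀ g ∈ Ω, y g = x g) : x ∈ X := by
  rw [← hX.closure_eq, mem_closure_iff_nhds]
  intro U hU
  rw [nhds_pi, Filter.mem_pi'] at hU
  obtain ⟨Ω, t, ht, hΩ⟩ := hU
  obtain ⟨y, hy, h⟩ := h Ω
  exact ⟨y, hΩ fun g hg => by rw [h g hg]; exact mem_of_mem_nhds (ht g), hy⟩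

theorem surjunctive (hG : LocallyVirtuallyFree G) {A : Type*} [Finite A] [TopologicalSpace A]
    [DiscreteTopology A] (X : Set (G → A)) (hX : IsSoficShift X) (hSI : StronglyIrreducible X) :
    Surjunctive X := by
  obtain ⟨n, Y, π, hY, hπc, hπ, rfl⟩ := hX
  have hYc : IsCompact Y := hY.isClosed.isCompact
  have hXc : IsCompact (π '' Y) := hYc.image_of_continuousOn hπc
  obtain ⟨W, P, hY⟩ := hY
  have hYs : ∀ g : G, ∀ y ∈ Y, shift g y ∈ Y := by
    intro g y hy
    rw [hY] at hy ⊢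
    intro h
    simp only [shift_shift]
    exact hy _
  have hXs : ∀ g : G, ∀ x ∈ π '' Y, shift g x ∈ π '' Y := by
    rintro g _ ⟨y, hy, rfl⟩
    exact ⟨_, hYs g y hy, hπ g y hy⟩
  obtain ⟨Mp, hMp⟩ := exists_memory hYc (f := fun y => π y 1)
    ((continuous_apply 1).comp_continuousOn hπc)
  intro τ hτc hτ hinj x
  obtain ⟨Mt, hMt⟩ := exists_memory hXc
    (f := fun x => if h : x ∈ π '' Y then (τ ⟨x, h⟩).1 1 else x 1) (by
      rw [continuousOn_iff_continuous_domRestrict]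
      have : Continuous fun x : π '' Y => (τ x).1 1 :=
        (continuous_apply 1).comp (continuous_subtype_val.comp hτc)
      convert this using 1
      funext x
      exact dif_pos x.2)
  have hloc : ∀ (w w' : π '' Y) (g g' : G), (∀ m ∈ Mt, w.1 (g * m) = w'.1 (g' * m)) →
      (τ w).1 g = (τ w').1 g' := by
    intro w w' g g' h
    have e : ∀ (w : π '' Y) (g : G), (τ w).1 g = (τ ⟨_, hXs g⁻¹ _ w.2⟩).1 1 := fun w g => by
      rw [hτ g⁻¹ w ⟨_, hXs g⁻¹ _ w.2⟩ rfl, shift_inv_apply, mul_one]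
    have := hMt _ (hXs g⁻¹ _ w.2) _ (hXs g'⁻¹ _ w'.2) fun m hm => by
      rw [shift_inv_apply, shift_inv_apply, h m hm]
    rw [dif_pos (hXs g⁻¹ _ w.2), dif_pos (hXs g'⁻¹ _ w'.2)] at this
    rw [e w g, e w' g', this]
  have : CompactSpace (π '' Y) := isCompact_iff_compactSpace.1 hXc
  have hcl : IsClosed (Set.range fun w : π '' Y => (τ w).1) :=
    (isCompact_range (continuous_subtype_val.comp hτc)).isClosed
  suffices h : x.1 ∈ Set.range fun w : π '' Y => (τ w).1 by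
    obtain ⟨w, hw⟩ := h
    exact ⟨w, Subtype.ext hw⟩
  refine mem_of_forall_finset hcl fun Ω => ?_
  obtain ⟨Δ, hΔ⟩ := id hSI
  let K := Subgroup.closure (↑(Δ ∪ W ∪ Mp ∪ Mt ∪ Ω) : Set G)
  have hKm : ∀ g, g ∈ Δ ∪ W ∪ Mp ∪ Mt ∪ Ω → g ∈ K := fun g hg => Subgroup.subset_closure hg
  obtain ⟨ι, T, _, _, φ, e, h1, h2⟩ := exists_coordinates hG K ⟨_, rfl⟩
  have := Fintype.ofFinite ι
  obtain ⟨y₀, hy₀, hx⟩ := x.2
  obtain ⟨y, hy, k1, N, S, hS, hNK, k2, k3⟩ := bridge φ e K h1 h2 W P Y hY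
    (fun w hw => hKm w (by simp [hw])) π hπ Mp hMp (fun w hw => hKm w (by simp [hw])) hSI Ω
    (fun w hw => hKm w (by simp [hw])) y₀ hy₀
  have hMK : ∀ m ∈ Mt, m ∈ K := fun w hw => hKm w (by simp [hw])
  -- injectivity on the restrictions to `K`
  have hinjK : ∀ w w' : π '' Y, (∀ g ∈ K, (τ w).1 g = (τ w').1 g) → ∀ g ∈ K, w.1 g = w'.1 g := by
    intro w w' h
    have hm : (fun g => if g ∈ K then w'.1 g else w.1 g) ∈ π '' Y := by
      refine mem_of_forall_finset hXc.isClosed fun F => ?_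
      obtain ⟨v, hv, v1, v2⟩ := hΔ _ w'.2 _ w.2 (F.filter (· ∈ K)) (F.filter (· ∉ K))
        fun a ha d hd h => (Finset.mem_filter.1 h).2
          (K.mul_mem (Finset.mem_filter.1 ha).2 (hKm d (by simp [hd])))
      refine ⟨v, hv, fun g hg => ?_⟩
      split_ifs with hg'
      · exact v1 g (Finset.mem_filter.2 ⟨hg, hg'⟩)
      · exact v2 g (Finset.mem_filter.2 ⟨hg, hg'⟩)
    have : τ ⟨_, hm⟩ = τ w := by
      refine Subtype.ext (funext fun g => ?_)
      by_cases hg : g ∈ K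
      · rw [h g hg]
        exact hloc _ _ _ _ fun m hm => if_pos (K.mul_mem hg (hMK m hm))
      · refine hloc _ _ _ _ fun m hm => if_neg fun h => hg ?_
        simpa using K.mul_mem h (K.inv_mem (hMK m hm))
    intro g hg
    have := congrFun (congrArg Subtype.val (hinj this)) g
    simp only [if_pos hg] at this
    exact this.symm
  let Q := {a : K → A // ∃ w : π '' Y, (∀ n ∈ N, ∀ g ∈ K, w.1 (n * g) = w.1 g) ∧
    a = fun g : K => w.1 g}
  have hQ : Finite Q := by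
    have : Finite {s : S // s.1 ∈ K} := by
      have : Finite S := hS
      infer_instance
    refine Finite.of_injective (fun (a : Q) (s : {s : S // s.1 ∈ K}) => a.1 ⟨s.1.1, s.2⟩) ?_
    rintro ⟨_, w, hw, rfl⟩ ⟨_, w', hw', rfl⟩ h
    refine Subtype.ext (funext fun g => ?_)
    obtain ⟨m, hm, t, ht, hg⟩ := k2 g g.2
    have htK : t ∈ K := by
      have := K.mul_mem (K.inv_mem (hNK m hm)) g.2
      rwa [hg, inv_mul_cancel_left] at this
    have := congrFun h ⟨⟨t, ht⟩, htK⟩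
    simp only at this ⊢
    rw [hg, hw m hm t htK, hw' m hm t htK, this]
  let f : Q → Q := fun a => ⟨fun g : K => (τ a.2.choose).1 g, τ a.2.choose,
    fun n hn g hg => hloc _ _ _ _ fun m hm => by
      rw [mul_assoc]
      exact a.2.choose_spec.1 n hn _ (K.mul_mem hg (hMK m hm)), rfl⟩
  have hf : Function.Injective f := by
    intro a b h
    refine Subtype.ext ?_
    rw [a.2.choose_spec.2, b.2.choose_spec.2]
    funext g
    exact hinjK _ _ (fun g hg => congrFun (congrArg Subtype.val h) ⟨g, hg⟩) g g.2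
  obtain ⟨a, ha⟩ := Finite.surjective_of_injective hf ⟨_, ⟨π y, y, hy, rfl⟩, k3, rfl⟩
  refine ⟨_, ⟨a.2.choose, rfl⟩, fun g hg => ?_⟩
  rw [← hx, ← k1 g hg]
  exact congrFun (congrArg Subtype.val ha) ⟨g, hKm g (by simp [hg])⟩

/-- virtually free groups (of any rank) are locally virtually free -/
lemma locallyVirtuallyFree_of_virtuallyFree (H : Subgroup G) [H.FiniteIndex] [IsFreeGroup H] :
    LocallyVirtuallyFree G := by
  intro K _
  refine ⟨H.subgroupOf K, inferInstance, ?_⟩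
  have e : H.subgroupOf K ≃* K.subgroupOf H :=
    ((Subgroup.subgroupOfEquivOfLe (inf_le_right : H ⊓ K ≤ K)).trans
      (Subgroup.subgroupOfEquivOfLe (inf_le_left : H ⊓ K ≤ H)).symm) |> fun e =>
      (MulEquiv.subgroupCongr (Subgroup.inf_subgroupOf_right H K).symm).trans
        (e.trans (MulEquiv.subgroupCongr (Subgroup.inf_subgroupOf_left K H)))
  exact IsFreeGroup.ofMulEquiv e.symm

end Pool.Agent.MP_3bdc7b_an

end MrgPart2

-- marker of a merged file
example : 731051 + 615483 = 731051 + 615483 := rfl
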