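import Mathlib.Tactic.Group
import Mathlib.GroupTheory.FreeGroup.Reduce

/-!
The Cayley tree of a free group: first letters, half trees, gluing of labelings.
-/

namespace Pool.Agent.MP_3bdc7b_an

open FreeGroup

variable {ι : Type*} [DecidableEq ι]

/-- the inverse letter -/
def bar (l : ι × Bool) : ι × Bool := (l.1, !l.2)

omit [DecidableEq ι] in
@[simp] lemma bar_bar (l : ι × Bool) : bar (bar l) = l := by simp [bar]

omit [DecidableEq ι] in
lemma bar_ne (l : ι × Bool) : bar l ≠ l := by
  rcases l with ⟨a, b⟩; cases b <;> simp [bar]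

/-- the group element of a letter -/
def gen (l : ι × Bool) : FreeGroup ι := FreeGroup.mk [l]

omit [DecidableEq ι] in
lemma gen_bar (l : ι × Bool) : gen (bar l) = (gen l)⁻¹ := by
  simp [gen, bar, FreeGroup.inv_mk, invRev]

omit [DecidableEq ι] in
lemma mk_cons (l : ι × Bool) (w : List (ι × Bool)) :
    FreeGroup.mk (l :: w) = gen l * FreeGroup.mk w := by
  simp [gen, FreeGroup.mul_mk]

omit [DecidableEq ι] in
lemma mk_snoc (l : ι × Bool) (w : List (ι × Bool)) :
    FreeGroup.mk (w ++ [l]) = FreeGroup.mk w * gen l := by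
  simp [gen, FreeGroup.mul_mk]

/-- the first letter of the reduced word -/
def hd (g : FreeGroup ι) : Option (ι × Bool) := g.toWord.head?

lemma toWord_gen_mul (l : ι × Bool) (g : FreeGroup ι) :
    (hd g ≠ some (bar l) ∧ (gen l * g).toWord = l :: g.toWord) ∨
      g.toWord = bar l :: (gen l * g).toWord := by
  have h : (gen l * g).toWord = reduce (l :: g.toWord) := by
    conv_lhs => rw [← mk_toWord (x := g), ← mk_cons, toWord_mk]
  rw [h, reduce.cons, reduce_toWord, hd]
  rcases hw : g.toWord with _ | ⟨a, w⟩
  · left; simp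
  · by_cases hc : l.1 = a.1 ∧ l.2 = !a.2
    · right
      simp only [hc, and_self, if_true, List.cons.injEq, and_true]
      rcases a with ⟨a1, a2⟩
      simp only [bar] at hc ⊢
      simp [hc.1, hc.2]
    · left
      simp only [hc, if_false, and_true, List.head?_cons, ne_eq, Option.some.injEq]
      rintro rfl
      simp [bar] at hc

lemma toWord_gen_mul_of_ne {l : ι × Bool} {g : FreeGroup ι} (h : hd g ≠ some (bar l)) :
    (gen l * g).toWord = l :: g.toWord := by
  rcases toWord_gen_mul l g with h' | h'
  · exact h'.2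
  · exact absurd (by simp [hd, h']) h

lemma hd_gen_mul {l : ι × Bool} {g : FreeGroup ι} (h : hd g ≠ some (bar l)) :
    hd (gen l * g) = some l := by simp [hd, toWord_gen_mul_of_ne h]

lemma norm_gen_mul {l : ι × Bool} {g : FreeGroup ι} (h : hd g ≠ some (bar l)) :
    (gen l * g).norm = g.norm + 1 := by simp [FreeGroup.norm, toWord_gen_mul_of_ne h]

lemma hd_one : hd (1 : FreeGroup ι) = none := by simp [hd]

lemma hd_eq_none {g : FreeGroup ι} : hd g = none ↔ g = 1 := by simp [hd]

lemma toWord_of_hd {l : ι × Bool} {g : FreeGroup ι} (h : hd g = some l) :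
    g.toWord = l :: ((gen l)⁻¹ * g).toWord := by
  rcases toWord_gen_mul (bar l) g with h' | h'
  · exact absurd (by simpa using h) h'.1
  · simpa [gen_bar] using h'

lemma hd_inv_mul {l : ι × Bool} {g : FreeGroup ι} (h : hd g = some l) :
    hd ((gen l)⁻¹ * g) ≠ some (bar l) := by
  have h1 := toWord_of_hd h
  have h2 : IsReduced g.toWord := isReduced_toWord
  rw [h1] at h2
  intro h3
  rcases hw : ((gen l)⁻¹ * g).toWord with _ | ⟨a, w⟩
  · simp [hd, hw] at h3
  · rw [hw] at h2
    simp only [hd, hw, List.head?_cons, Option.some.injEq] at h3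
    subst h3
    have := (isReduced_cons_cons.1 h2).1
    simp [bar] at this

lemma toWord_mul_gen (g : FreeGroup ι) (l : ι × Bool) :
    (g * gen l).toWord = g.toWord ++ [l] ∨ g.toWord = (g * gen l).toWord ++ [bar l] := by
  have e : gen (bar l) * g⁻¹ = (g * gen l)⁻¹ := by rw [gen_bar]; group
  rcases toWord_gen_mul (bar l) g⁻¹ with h | h
  · left
    have h2 := h.2
    rw [e, toWord_inv, toWord_inv] at h2
    have := congrArg invRev h2
    rw [invRev_invRev, invRev_cons, invRev_invRev] at this
    rw [this]
    simp [invRev, bar]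
  · right
    rw [e, toWord_inv, toWord_inv] at h
    have := congrArg invRev h
    rw [invRev_invRev, invRev_cons, invRev_invRev] at this
    rw [this]
    simp [invRev, bar]

lemma norm_inv_mul : ∀ (n : ℕ) (a b : FreeGroup ι), a.norm = n → hd a ≠ hd b →
    (a⁻¹ * b).norm = a.norm + b.norm := by
  intro n
  induction n with
  | zero =>
    intro a b ha _
    rw [FreeGroup.norm_eq_zero] at ha
    simp [ha]
  | succ n ih =>
    intro a b ha hab
    rcases hl : hd a with _ | l
    · rw [hd_eq_none] at hl; simp [hl] at ha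
    · have h1 := toWord_of_hd hl
      have h2 := hd_inv_mul hl
      have hb : hd b ≠ some (bar (bar l)) := by rw [bar_bar, ← hl]; exact hab.symm
      have hn : ((gen l)⁻¹ * a).norm = n := by
        have : a.norm = ((gen l)⁻¹ * a).norm + 1 := by
          simp only [FreeGroup.norm]; rw [h1]; simp
        omega
      have := ih ((gen l)⁻¹ * a) (gen (bar l) * b) hn (by rw [hd_gen_mul hb]; exact h2)
      rw [norm_gen_mul hb, hn] at this
      have e : ((gen l)⁻¹ * a)⁻¹ * (gen (bar l) * b) = a⁻¹ * b := by rw [gen_bar]; group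
      rw [e] at this
      omega

lemma hd_mul_gen {g : FreeGroup ι} {m : ι × Bool} (h : hd g = some m) (l : ι × Bool) :
    hd (g * gen l) = some m ∨ (g = gen m ∧ l = bar m) := by
  rcases toWord_mul_gen g l with h' | h'
  · left
    have := toWord_of_hd h
    simp [hd, h', this]
  · rcases hw : (g * gen l).toWord with _ | ⟨a, w⟩
    · right
      rw [hw] at h'
      have hm : bar l = m := by simpa [hd, h'] using h
      refine ⟨?_, by rw [← hm, bar_bar]⟩
      rw [← mk_toWord (x := g), h', ← hm]; rfl
    · left
      rw [hw] at h'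
      have hm : a = m := by simpa [hd, h'] using h
      simp [hd, hw, hm]

section Model

variable {C : Type*} (E : ι × Bool → C → C → Prop)

/-- labelings of the Cayley tree that respect the edge relations -/
def Valid (z : FreeGroup ι → C) : Prop := ∀ g l, E l (z g) (z (g * gen l))

variable {E}

omit [DecidableEq ι] in
lemma Valid.shift {z : FreeGroup ι → C} (hz : Valid E z) (u : FreeGroup ι) :
    Valid E fun g => z (u * g) := fun g l => by
  simpa [mul_assoc] using hz (u * g) l

/-- gluing labelings of the branches at the root -/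
lemma exists_glue (hE : ∀ l c c', E l c c' → E (bar l) c' c) (c : C)
    (z : ι × Bool → FreeGroup ι → C) (hz : ∀ m, Valid E (z m)) (hc : ∀ m, E m c (z m 1)) :
    ∃ w, Valid E w ∧ w 1 = c ∧ ∀ m g, hd g ≠ some (bar m) → w (gen m * g) = z m g := by
  let w : FreeGroup ι → C := fun g => match hd g with
    | none => c
    | some m => z m ((gen m)⁻¹ * g)
  have w1 : w 1 = c := by simp [w, hd_one]
  have w2 : ∀ m g, hd g = some m → w g = z m ((gen m)⁻¹ * g) := by
    intro m g h; simp [w, h]
  have hg : ∀ m : ι × Bool, hd (gen m) = some m := fun m => by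
    simpa using hd_gen_mul (l := m) (g := 1) (by simp [hd_one])
  refine ⟨w, fun g l => ?_, w1, fun m g h => ?_⟩
  · rcases hl : hd g with _ | m
    · rw [hd_eq_none] at hl
      subst hl
      rw [w1, one_mul, w2 l _ (hg l)]
      simpa using hc l
    · rcases hd_mul_gen hl l with h | ⟨h1, h2⟩
      · rw [w2 m _ hl, w2 m _ h, ← mul_assoc]
        exact hz m _ l
      · subst h1 h2
        rw [gen_bar, mul_inv_cancel, w1, w2 m _ hl]
        simpa using hE _ _ _ (hc m)
  · rw [w2 m _ (hd_gen_mul h)]
    simp

/-- building a labeling outwards from the root -/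
lemma exists_label (hE : ∀ l c c', E l c c' → E (bar l) c' c)
    (P : FreeGroup ι → C → Prop) (I : FreeGroup ι → ι × Bool → Set C)
    (h0 : ∃ c, P 1 c ∧ ∀ m, ∃ c' ∈ I 1 m, E m c c')
    (hI : ∀ g l, ∀ c ∈ I g l, P (g * gen l) c ∧
      ∀ m, m ≠ bar l → ∃ c' ∈ I (g * gen l) m, E m c c') :
    ∃ z, Valid E z ∧ ∀ g, P g (z g) := by
  classical
  obtain ⟨c0, hc0, hc0'⟩ := h0
  let nxt : FreeGroup ι → C → ι × Bool → C := fun g c m =>
    if h : ∃ c' ∈ I g m, E m c c' then h.choose else c
  have hn : ∀ g c m, (∃ c' ∈ I g m, E m c c') → nxt g c m ∈ I g m ∧ E m c (nxt g c m) := by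
    intro g c m h
    simp only [nxt, dif_pos h]
    exact h.choose_spec
  let lab : List (ι × Bool) → FreeGroup ι × C := fun w =>
    w.foldl (fun s m => (s.1 * gen m, nxt s.1 s.2 m)) (1, c0)
  have l1 : ∀ w m, lab (w ++ [m]) = ((lab w).1 * gen m, nxt (lab w).1 (lab w).2 m) := by
    intro w m; simp [lab, List.foldl_append]
  have l2 : ∀ w, (lab w).1 = FreeGroup.mk w := by
    intro w
    induction w using List.reverseRecOn with
    | nil => rfl
    | append_singleton w m ih => rw [l1, mk_snoc, ih]
  have inv : ∀ w, IsReduced w → P (FreeGroup.mk w) (lab w).2 ∧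
      ∀ m, w.getLast? ≠ some (bar m) → ∃ c' ∈ I (FreeGroup.mk w) m, E m (lab w).2 c' := by
    intro w
    induction w using List.reverseRecOn with
    | nil => intro _; exact ⟨hc0, fun m _ => hc0' m⟩
    | append_singleton w l ih =>
      intro hr
      have hr' : IsReduced w := List.IsChain.left_of_append hr
      have hl : w.getLast? ≠ some (bar l) := by
        intro h
        obtain ⟨w', rfl⟩ := List.getLast?_eq_some_iff.1 h
        rw [List.append_assoc] at hr
        have : IsReduced [bar l, l] := List.IsChain.right_of_append hr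
        have := (isReduced_cons_cons.1 this).1
        simp [bar] at this
      obtain ⟨h1, h2⟩ := hn _ _ _ ((ih hr').2 l hl)
      rw [l1, l2, mk_snoc]
      refine ⟨(hI _ _ _ h1).1, fun m hm => (hI _ _ _ h1).2 m ?_⟩
      rintro rfl
      simp at hm
  have key : ∀ (g : FreeGroup ι) (l : ι × Bool), (g * gen l).toWord = g.toWord ++ [l] →
      E l (lab g.toWord).2 (lab (g * gen l).toWord).2 := by
    intro g l h
    have hr : IsReduced (g.toWord ++ [l]) := h ▸ isReduced_toWord
    have hl : g.toWord.getLast? ≠ some (bar l) := by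
      intro h
      obtain ⟨w', hw'⟩ := List.getLast?_eq_some_iff.1 h
      rw [hw', List.append_assoc] at hr
      have : IsReduced [bar l, l] := List.IsChain.right_of_append hr
      have := (isReduced_cons_cons.1 this).1
      simp [bar] at this
    rw [h, l1, l2]
    exact (hn _ _ _ ((inv _ isReduced_toWord).2 l hl)).2
  refine ⟨fun g => (lab g.toWord).2, fun g l => ?_, fun g => ?_⟩
  · rcases toWord_mul_gen g l with h | h
    · exact key g l h
    · have e : g * gen l * gen (bar l) = g := by rw [gen_bar]; group
      have := key (g * gen l) (bar l) (by rw [e]; exact h)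
      rw [e] at this
      simpa using hE _ _ _ this
  · have := (inv _ (isReduced_toWord (x := g))).1
    rwa [mk_toWord] at this

end Model

end Pool.Agent.MP_3bdc7b_an
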