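import Mathlib.Data.Finite.Prod
import Mathlib.Data.Set.Finite.Lattice
import Pool.Agent.MP_3bdc7b_an.Tree

/-!
Nearest neighbour models on the Cayley tree and the states of their branches.
-/

namespace Pool.Agent.MP_3bdc7b_an

open FreeGroup

/-- a nearest neighbour model with hidden labels `C` and visible labels `A` whose visible part
is strongly irreducible -/
structure TM (ι C A : Type*) [DecidableEq ι] where
  E : ι × Bool → C → C → Prop
  p : C → A
  symm : ∀ l c c', E l c c' → E (bar l) c' c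
  ess : ∀ c, ∃ z, Valid E z ∧ z 1 = c
  R : ℕ
  si : ∀ z₁ z₂, Valid E z₁ → Valid E z₂ → ∀ Ω₁ Ω₂ : Set (FreeGroup ι), Ω₁.Finite → Ω₂.Finite →
    (∀ a ∈ Ω₁, ∀ b ∈ Ω₂, R ≤ (a⁻¹ * b).norm) →
    ∃ z, Valid E z ∧ (∀ g ∈ Ω₁, p (z g) = p (z₁ g)) ∧ ∀ g ∈ Ω₂, p (z g) = p (z₂ g)

variable {ι C A : Type*} [DecidableEq ι]

/-- the half tree entered through the letter `l`, seen from its root -/
def HT (l : ι × Bool) : Set (FreeGroup ι) := {g | hd g ≠ some (bar l)}

/-- the union of sets placed in the branches below a vertex entered through `l` -/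
def comb (l : ι × Bool) (V : ι × Bool → Set (FreeGroup ι)) : Set (FreeGroup ι) :=
  {g | ∃ m, m ≠ bar l ∧ ∃ h ∈ V m, g = gen m * h}

omit [DecidableEq ι] in
lemma comb_finite [Finite ι] (l : ι × Bool) {V : ι × Bool → Set (FreeGroup ι)}
    (hV : ∀ m, (V m).Finite) : (comb l V).Finite := by
  refine (Set.finite_iUnion fun m => (hV m).image (fun h => gen m * h)).subset ?_
  rintro _ ⟨m, -, h, hh, rfl⟩
  exact Set.mem_iUnion.2 ⟨m, h, hh, rfl⟩

lemma comb_subset (l : ι × Bool) {V : ι × Bool → Set (FreeGroup ι)}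
    (hV : ∀ m, V m ⊆ HT m) : comb l V ⊆ HT l := by
  rintro _ ⟨m, hm, h, hh, rfl⟩
  simp only [HT, Set.mem_ofPred_eq]
  rw [hd_gen_mul (hV m hh)]
  simpa using hm

lemma one_mem_HT (l : ι × Bool) : (1 : FreeGroup ι) ∈ HT l := by simp [HT, hd_one]

namespace TM

variable (M : TM ι C A)

/-- the labels at the root compatible with the visible pattern `y` on `V` -/
def St (V : Set (FreeGroup ι)) (y : FreeGroup ι → A) : Set C :=
  {c | ∃ z, Valid M.E z ∧ z 1 = c ∧ ∀ g ∈ V, M.p (z g) = y g}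

/-- the state sent upwards by a vertex -/
def Psi (l : ι × Bool) (a : A) (I : ι × Bool → Set C) : Set C :=
  {c | M.p c = a ∧ ∀ m, m ≠ bar l → ∃ c' ∈ I m, M.E m c c'}

/-- consistent vertex types -/
def Val (a : A) (I : ι × Bool → Set C) : Prop :=
  ∃ c, M.p c = a ∧ ∀ m, ∃ c' ∈ I m, M.E m c c'

/-- compatible states at the two ends of an edge -/
def Cmp (l : ι × Bool) (I' I : Set C) : Prop := ∃ c ∈ I, ∃ c' ∈ I', M.E l c c'

lemma val_iff (l : ι × Bool) (a : A) (I : ι × Bool → Set C) :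
    M.Val a I ↔ M.Cmp l (I l) (M.Psi (bar l) a I) := by
  constructor
  · rintro ⟨c, h1, h2⟩
    exact ⟨c, ⟨h1, fun m _ => h2 m⟩, h2 l⟩
  · rintro ⟨c, ⟨h1, h2⟩, h3⟩
    refine ⟨c, h1, fun m => ?_⟩
    by_cases h : m = l
    · subst h; exact h3
    · exact h2 m (by simpa using h)

lemma cmp_symm {l : ι × Bool} {I' I : Set C} (h : M.Cmp l I' I) : M.Cmp (bar l) I I' := by
  obtain ⟨c, hc, c', hc', h⟩ := h
  exact ⟨c', hc', c, hc, M.symm _ _ _ h⟩

lemma psi_update (l : ι × Bool) (a : A) (I : ι × Bool → Set C) (J : Set C) :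
    M.Psi l a (Function.update I (bar l) J) = M.Psi l a I := by
  ext c
  refine and_congr_right fun _ => forall_congr' fun m => forall_congr' fun hm => ?_
  rw [Function.update_of_ne hm]

lemma st_congr {V : Set (FreeGroup ι)} {y y' : FreeGroup ι → A} (h : ∀ g ∈ V, y g = y' g) :
    M.St V y = M.St V y' := by
  ext c
  refine exists_congr fun z => and_congr_right fun _ => and_congr_right fun _ => ?_
  exact forall_congr' fun g => forall_congr' fun hg => by rw [h g hg]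

lemma glue_psi {l : ι × Bool} {c : C} {V : ι × Bool → Set (FreeGroup ι)}
    (hV : ∀ m, V m ⊆ HT m) {y : ι × Bool → FreeGroup ι → A}
    (h : ∀ m, m ≠ bar l → ∃ c' ∈ M.St (V m) (y m), M.E m c c') :
    ∃ z, Valid M.E z ∧ z 1 = c ∧ ∀ m, m ≠ bar l → ∀ g ∈ V m, M.p (z (gen m * g)) = y m g := by
  have h' : ∀ m, ∃ z, Valid M.E z ∧ M.E m c (z 1) ∧
      (m ≠ bar l → ∀ g ∈ V m, M.p (z g) = y m g) := by
    intro m
    by_cases hm : m = bar l
    · obtain ⟨z, hz, hc⟩ := M.ess c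
      refine ⟨_, hz.shift (gen m), ?_, fun h => absurd hm h⟩
      have := hz 1 m
      rw [hc] at this
      simpa using this
    · obtain ⟨c', ⟨z, hz, h1, h2⟩, h3⟩ := h m hm
      exact ⟨z, hz, h1 ▸ h3, fun _ => h2⟩
  choose z hz h1 h2 using h'
  obtain ⟨w, hw, w1, w2⟩ := exists_glue M.symm c z hz h1
  exact ⟨w, hw, w1, fun m hm g hg => by rw [w2 m g (hV m hg), h2 m hm g hg]⟩

lemma st_rec {l : ι × Bool} {V : ι × Bool → Set (FreeGroup ι)} (hV : ∀ m, V m ⊆ HT m)
    (y : FreeGroup ι → A) {I : ι × Bool → Set C}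
    (hI : ∀ m, m ≠ bar l → I m = M.St (V m) fun g => y (gen m * g)) :
    M.Psi l (y 1) I = M.St (insert 1 (comb l V)) y := by
  ext c
  constructor
  · rintro ⟨h1, h2⟩
    obtain ⟨z, hz, z1, z2⟩ := M.glue_psi (l := l) (c := c) hV (y := fun m g => y (gen m * g))
      (fun m hm => hI m hm ▸ h2 m hm)
    refine ⟨z, hz, z1, ?_⟩
    rintro _ (rfl | ⟨m, hm, h, hh, rfl⟩)
    · rw [z1, h1]
    · exact z2 m hm h hh
  · rintro ⟨z, hz, rfl, h⟩
    refine ⟨h 1 (Set.mem_insert _ _), fun m hm => ⟨z (gen m), ?_, by simpa using hz 1 m⟩⟩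
    rw [hI m hm]
    exact ⟨_, hz.shift (gen m), by simp,
      fun g hg => h _ (Set.mem_insert_of_mem _ ⟨m, hm, g, hg, rfl⟩)⟩

/-- realisable states -/
def Real (l : ι × Bool) : Set (Set C) :=
  {J | J.Nonempty ∧ ∃ D y, D.Finite ∧ D ⊆ HT l ∧ J = M.St D y}

/-- sets of states obtained from all fillings of `U` given a pattern at depth at least `n` -/
def Good (n : ℕ) (l : ι × Bool) (S : Set (Set C)) : Prop :=
  S.Nonempty ∧ ∃ (U D : Set (FreeGroup ι)) (x : FreeGroup ι → A), U.Finite ∧ D.Finite ∧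
    U ⊆ HT l ∧ D ⊆ HT l ∧ (∀ g ∈ D, n ≤ g.norm) ∧
    S = {I | ∃ z, Valid M.E z ∧ (∀ g ∈ D, M.p (z g) = x g) ∧
      I = M.St (U ∪ D) fun g => M.p (z g)}

variable {M}

lemma good_real {n : ℕ} {l : ι × Bool} {S : Set (Set C)} (h : M.Good n l S) {J : Set C}
    (hJ : J ∈ S) : J ∈ M.Real l := by
  obtain ⟨-, U, D, x, hU, hD, hU', hD', -, rfl⟩ := h
  obtain ⟨z, hz, -, rfl⟩ := hJ
  exact ⟨⟨z 1, z, hz, rfl, fun _ _ => rfl⟩, _, _, hU.union hD, Set.union_subset hU' hD', rfl⟩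

lemma good_zero {l : ι × Bool} {J : Set C} (hJ : J ∈ M.Real l) : M.Good 0 l {J} := by
  obtain ⟨⟨c, hc⟩, D, y, hD, hD', rfl⟩ := hJ
  refine ⟨Set.singleton_nonempty _, ∅, D, y, Set.finite_empty, hD, Set.empty_subset _, hD',
    fun _ _ => Nat.zero_le _, ?_⟩
  ext I
  simp only [Set.mem_singleton_iff, Set.empty_union, Set.mem_ofPred_eq]
  constructor
  · rintro rfl
    obtain ⟨z, hz, -, h⟩ := hc
    exact ⟨z, hz, h, M.st_congr fun g hg => (h g hg).symm⟩
  · rintro ⟨z, hz, h, rfl⟩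
    exact M.st_congr h

lemma good_univ [Nonempty C] (n : ℕ) (l : ι × Bool) : M.Good n l {Set.univ} := by
  obtain ⟨z₀, hz₀, -⟩ := M.ess (Classical.arbitrary C)
  have e : ∀ y, M.St (∅ ∪ ∅) y = Set.univ := fun y => Set.eq_univ_of_forall fun c => by
    obtain ⟨z, hz, h⟩ := M.ess c
    exact ⟨z, hz, h, by simp⟩
  refine ⟨Set.singleton_nonempty _, ∅, ∅, fun g => M.p (z₀ g), Set.finite_empty,
    Set.finite_empty, Set.empty_subset _, Set.empty_subset _, by simp, ?_⟩
  ext I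
  simp only [Set.mem_singleton_iff, Set.mem_ofPred_eq, e]
  exact ⟨fun h => ⟨z₀, hz₀, by simp, h⟩, fun ⟨_, _, _, h⟩ => h⟩

lemma good_step [Finite ι] {n : ℕ} (l : ι × Bool) {S : ι × Bool → Set (Set C)}
    (h : ∀ m, M.Good n m (S m))
    (hne : {J | ∃ a I, (∀ m, I m ∈ S m) ∧ M.Psi l a I = J ∧ J.Nonempty}.Nonempty) :
    M.Good (n + 1) l {J | ∃ a I, (∀ m, I m ∈ S m) ∧ M.Psi l a I = J ∧ J.Nonempty} := by
  refine ⟨hne, ?_⟩
  have h0 : ∀ m, (S m).Nonempty := fun m => (h m).1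
  choose U D x hU hD hU' hD' hn hS using fun m => (h m).2
  obtain ⟨a₀, -⟩ := hne.choose_spec
  let y : FreeGroup ι → A := fun g => match hd g with
    | none => a₀
    | some m => x m ((gen m)⁻¹ * g)
  have hy : ∀ m, ∀ g ∈ D m, y (gen m * g) = x m g := fun m g hg => by
    simp [y, hd_gen_mul (hD' m hg)]
  have hUD : ∀ m, U m ∪ D m ⊆ HT m := fun m => Set.union_subset (hU' m) (hD' m)
  have hu : insert 1 (comb l U) ∪ comb l D = insert 1 (comb l fun m => U m ∪ D m) := by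
    ext g
    simp only [Set.mem_union, Set.mem_insert_iff, comb, Set.mem_ofPred_eq]
    constructor
    · rintro ((rfl | ⟨m, hm, h, hh, rfl⟩) | ⟨m, hm, h, hh, rfl⟩)
      · exact Or.inl rfl
      · exact Or.inr ⟨m, hm, h, Or.inl hh, rfl⟩
      · exact Or.inr ⟨m, hm, h, Or.inr hh, rfl⟩
    · rintro (rfl | ⟨m, hm, h, hh | hh, rfl⟩)
      · exact Or.inl (Or.inl rfl)
      · exact Or.inl (Or.inr ⟨m, hm, h, hh, rfl⟩)
      · exact Or.inr ⟨m, hm, h, hh, rfl⟩
  refine ⟨insert 1 (comb l U), comb l D, y, (comb_finite l hU).insert _, comb_finite l hD,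
    Set.insert_subset (one_mem_HT l) (comb_subset l hU'), comb_subset l hD', ?_, ?_⟩
  · rintro _ ⟨m, -, h, hh, rfl⟩
    rw [norm_gen_mul (hD' m hh)]
    exact Nat.succ_le_succ (hn m h hh)
  · rw [hu]
    ext J
    constructor
    · rintro ⟨a, I, hI, rfl, c, hc⟩
      have hI' : ∀ m, ∃ z, Valid M.E z ∧ (∀ g ∈ D m, M.p (z g) = x m g) ∧
          I m = M.St (U m ∪ D m) fun g => M.p (z g) := fun m => by
        have := hI m
        rw [hS m] at this
        exact this
      choose w hw w1 w2 using hI'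
      obtain ⟨z, hz, z1, z2⟩ := M.glue_psi (l := l) (c := c) hUD (y := fun m g => M.p (w m g))
        (fun m hm => w2 m ▸ hc.2 m hm)
      refine ⟨z, hz, ?_, ?_⟩
      · rintro _ ⟨m, hm, h, hh, rfl⟩
        rw [z2 m hm h (Or.inr hh), w1 m h hh, hy m h hh]
      · rw [← M.st_rec hUD (fun g => M.p (z g)) (I := I), z1, hc.1]
        intro m hm
        rw [w2 m]
        exact M.st_congr fun g hg => (z2 m hm g hg).symm
    · rintro ⟨z, hz, h1, rfl⟩
      classical
      refine ⟨M.p (z 1), fun m => if m = bar l then (h0 m).some else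
        M.St (U m ∪ D m) fun g => M.p (z (gen m * g)), fun m => ?_, ?_,
        ⟨z 1, z, hz, rfl, fun _ _ => rfl⟩⟩
      · by_cases hm : m = bar l
        · simp only [if_pos hm]; exact (h0 m).some_mem
        · simp only [if_neg hm]
          rw [hS m]
          exact ⟨_, hz.shift (gen m),
            fun g hg => by rw [h1 _ ⟨m, hm, g, hg, rfl⟩, hy m g hg], rfl⟩
      · exact M.st_rec hUD (fun g => M.p (z g)) fun m hm => by simp only [if_neg hm]

lemma real_psi [Finite ι] (l : ι × Bool) (a : A) {I : ι × Bool → Set C}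
    (hI : ∀ m, I m ∈ M.Real m) (hne : (M.Psi l a I).Nonempty) : M.Psi l a I ∈ M.Real l :=
  good_real (good_step l (fun m => good_zero (hI m)) ⟨_, a, I, fun _ => rfl, rfl, hne⟩)
    ⟨a, I, fun _ => rfl, rfl, hne⟩

lemma good_pos [Finite ι] {S : ι × Bool → Set (Set C)} (h : ∀ m, M.Good M.R m (S m))
    {z₀ : FreeGroup ι → C} (hz₀ : Valid M.E z₀) :
    ∃ I, (∀ m, I m ∈ S m) ∧ M.Val (M.p (z₀ 1)) I := by
  classical
  have h0 : ∀ m, (S m).Nonempty := fun m => (h m).1
  choose U D x hU hD hU' hD' hn hS using fun m => (h m).2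
  have h1 : ∀ m, ∃ z, Valid M.E z ∧ ∀ g ∈ D m, M.p (z g) = x m g := fun m => by
    obtain ⟨I, hI⟩ := h0 m
    rw [hS m] at hI
    obtain ⟨z, hz, h, -⟩ := hI
    exact ⟨z, hz, h⟩
  choose w hw w1 using h1
  have key : ∀ s : Finset (ι × Bool), ∃ z, Valid M.E z ∧ M.p (z 1) = M.p (z₀ 1) ∧
      ∀ m ∈ s, ∀ g ∈ D m, M.p (z (gen m * g)) = x m g := by
    intro s
    induction s using Finset.induction_on with
    | empty => exact ⟨z₀, hz₀, rfl, by simp⟩
    | insert k s hk ih =>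
      obtain ⟨z, hz, z1, z2⟩ := ih
      obtain ⟨z', hz', y1, y2⟩ := M.si z _ hz ((hw k).shift (gen k)⁻¹)
        (insert 1 (⋃ m ∈ s, (fun h => gen m * h) '' D m)) ((fun h => gen k * h) '' D k)
        ((s.finite_toSet.biUnion fun m _ => (hD m).image _).insert _) ((hD k).image _) (by
          rintro a ha _ ⟨b, hb, rfl⟩
          have hab : hd a ≠ hd (gen k * b) := by
            rw [hd_gen_mul (hD' k hb)]
            rcases ha with rfl | ha
            · simp [hd_one]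
            · simp only [Set.mem_iUnion] at ha
              obtain ⟨m, hm, h, hh, rfl⟩ := ha
              rw [hd_gen_mul (hD' m hh)]
              rintro h
              exact hk (by rw [← Option.some.inj h]; exact hm)
          rw [norm_inv_mul _ a _ rfl hab, norm_gen_mul (hD' k hb)]
          have := hn k b hb
          omega)
      refine ⟨z', hz', by rw [y1 1 (Set.mem_insert _ _), z1], fun m hm g hg => ?_⟩
      rcases Finset.mem_insert.1 hm with rfl | hm
      · rw [y2 _ ⟨g, hg, rfl⟩]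
        simpa using w1 m g hg
      · rw [y1 _ (Set.mem_insert_of_mem _ (Set.mem_biUnion hm ⟨g, hg, rfl⟩)), z2 m hm g hg]
  have := Fintype.ofFinite ι
  obtain ⟨z, hz, z1, z2⟩ := key Finset.univ
  refine ⟨fun m => M.St (U m ∪ D m) fun g => M.p (z (gen m * g)), fun m => ?_, z 1, z1,
    fun m => ⟨z (gen m), ⟨_, hz.shift (gen m), by simp, fun _ _ => rfl⟩, by simpa using hz 1 m⟩⟩
  rw [hS m]
  exact ⟨_, hz.shift (gen m), z2 m (Finset.mem_univ _), rfl⟩

end TM

end Pool.Agent.MP_3bdc7b_an
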